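import Pool.Agent.X90.DA.Main2

/-!
# Transcendence and the number of relations with further values
-/

set_option autoImplicit false

namespace Pool.Agent.X90.DA

open Finset

/-- general Dirichlet series -/
theorem count_dser (t k D : ℕ) (x : Fin t → ℂ) (a : Fin k → ℕ → ℂ) (σ : ℕ)
    (hσ : ∀ i, Summable fun n : ℕ => ‖a i n‖ / ((n : ℝ) + 1) ^ σ)
    (ha : ∀ i, ∃ n, 1 ≤ n ∧ a i n ≠ 0) :
    ∃ A : ℝ, 0 < A ∧ ∀ (N : ℕ) (h : ℝ), 1 ≤ h →
      ((Exc D x (fun i s => dval (a i) s) 1 N h).ncard : ℝ) ≤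
        A * (h / N) ^ ((1 / 2 : ℝ) ^ ((D + 1) ^ (t + k))) * (N : ℝ) ^ k := by
  have h1 : ∀ i, ∃ s0 : ℕ, σ ≤ s0 ∧ ∀ s1, s0 ≤ s1 → Near (fun s => dval (a i) s - a i 0) s1 :=
    fun i => near_dser (a i) σ (hσ i) (ha i)
  choose s0 hs0 hnear using h1
  set s1 : ℕ := 1 + ∑ i, s0 i with hs1
  exact count_main t k D x (fun i => a i 0) (fun i s => dval (a i) s) s1 (by omega) fun i =>
    hnear i s1 (by
      have := single_le_sum (f := s0) (fun _ _ => Nat.zero_le _) (mem_univ i)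
      omega)

lemma coeff_sum_fx {k D : ℕ} (q : (Fin k → Fin (D + 1)) → ℂ) (e0 : Fin k → Fin (D + 1)) :
    (∑ e : Fin k → Fin (D + 1), MvPolynomial.C (q e) *
      ∏ i, (MvPolynomial.X i : MvPolynomial (Fin k) ℂ) ^ ((e i : Fin (D + 1)) : ℕ)).coeff (fx e0) =
      q e0 := by
  classical
  have h1 : ∀ e : Fin k → Fin (D + 1), MvPolynomial.C (q e) *
      ∏ i, (MvPolynomial.X i : MvPolynomial (Fin k) ℂ) ^ ((e i : Fin (D + 1)) : ℕ) =
      MvPolynomial.monomial (fx e) (q e) := by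
    intro e
    rw [MvPolynomial.monomial_eq, Finsupp.prod_fintype _ _ (fun _ => pow_zero _)]
    rfl
  simp only [h1]
  rw [MvPolynomial.coeff_sum, sum_eq_single e0]
  · rw [MvPolynomial.coeff_monomial, if_pos rfl]
  · intro e _ hne
    rw [MvPolynomial.coeff_monomial, if_neg fun h => hne (fx_inj h)]
  · intro h
    exact absurd (mem_univ _) h

/-- a nonzero polynomial stays nonzero when a transcendental number is substituted -/
lemma subst_ne {k D : ℕ} {y : ℂ} (hy : Transcendental ℤ y) {P : MvPolynomial (Fin 1 ⊕ Fin k) ℤ}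
    (hP : P.totalDegree ≤ D) (hP0 : P ≠ 0) :
    MvPolynomial.aeval (Sum.elim (fun _ => MvPolynomial.C y) MvPolynomial.X :
      Fin 1 ⊕ Fin k → MvPolynomial (Fin k) ℂ) P ≠ 0 := by
  classical
  intro h0
  apply hP0
  rw [eval_sum hP] at h0
  have h1 : ∀ e : Fin k → Fin (D + 1), (∑ m : Fin 1 → Fin (D + 1),
      ((P.coeff (fx (Sum.elim m e)) : ℤ) : ℂ) * ∏ j, y ^ ((m j : Fin (D + 1)) : ℕ)) = 0 := by
    intro e
    have hC : ∀ e' : Fin k → Fin (D + 1), (∑ m : Fin 1 → Fin (D + 1),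
        ((P.coeff (fx (Sum.elim m e')) : ℤ) : MvPolynomial (Fin k) ℂ) *
          ∏ j, (MvPolynomial.C y) ^ ((m j : Fin (D + 1)) : ℕ)) =
        MvPolynomial.C (∑ m : Fin 1 → Fin (D + 1),
          ((P.coeff (fx (Sum.elim m e')) : ℤ) : ℂ) * ∏ j, y ^ ((m j : Fin (D + 1)) : ℕ)) := by
      intro e'
      rw [map_sum]
      refine sum_congr rfl fun m _ => ?_
      rw [map_mul, map_prod]
      simp only [map_pow]
      rw [map_intCast]
    simp only [hC] at h0
    have h3 := congrArg (MvPolynomial.coeff (fx e)) h0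
    rwa [coeff_sum_fx (fun e' : Fin k → Fin (D + 1) => ∑ m : Fin 1 → Fin (D + 1),
          ((P.coeff (fx (Sum.elim m e')) : ℤ) : ℂ) * ∏ j, y ^ ((m j : Fin (D + 1)) : ℕ)),
      MvPolynomial.coeff_zero] at h3
  have h2 : ∀ (m : Fin 1 → Fin (D + 1)) (e : Fin k → Fin (D + 1)),
      P.coeff (fx (Sum.elim m e)) = 0 := by
    intro m e
    set p : Polynomial ℤ := ∑ i : Fin (D + 1),
      Polynomial.C (P.coeff (fx (Sum.elim (fun _ : Fin 1 => i) e))) * Polynomial.X ^ (i : ℕ) with hp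
    have h3 : Polynomial.aeval y p = 0 := by
      rw [← h1 e, hp, map_sum]
      refine Fintype.sum_equiv (Equiv.funUnique (Fin 1) (Fin (D + 1))).symm _ _ fun i => ?_
      rw [map_mul, Polynomial.aeval_C, map_pow, Polynomial.aeval_X]
      rw [Fin.prod_univ_one]
      rfl
    have h4 : p = 0 := by
      by_contra hne
      exact hy ⟨p, hne, h3⟩
    have h5 := congrArg (fun p => Polynomial.coeff p (m 0)) h4
    simp only [hp, Polynomial.finsetSum_coeff, Polynomial.coeff_C_mul, Polynomial.coeff_X_pow,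
      Polynomial.coeff_zero] at h5
    rw [sum_eq_single (m 0)] at h5
    · rw [if_pos rfl, mul_one] at h5
      rw [← h5]
      congr 3
      funext j
      rw [Subsingleton.elim j 0]
    · intro i _ hi
      rw [if_neg, mul_zero]
      exact fun h => hi (Fin.ext h.symm)
    · intro h
      exact absurd (mem_univ _) h
  ext m
  rw [MvPolynomial.coeff_zero]
  by_contra hne
  obtain ⟨g, hg⟩ := fx_surj hP (MvPolynomial.mem_support_iff.2 hne)
  apply hne
  rw [← hg]
  have h6 : g = Sum.elim (g ∘ Sum.inl) (g ∘ Sum.inr) := (Sum.elim_comp_inl_inr g).symm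
  rw [h6]
  exact h2 _ _

end Pool.Agent.X90.DA
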