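import Pool.Agent.X90.DA.Dom

/-!
# Counting the relations with integer coefficients
-/

set_option autoImplicit false

namespace Pool.Agent.X90.DA

open Finset

/-- a set of natural numbers of small diameter -/
lemma card_diam (T : Finset ℕ) {L : ℝ} (hL : 0 ≤ L) (hT : ∀ x ∈ T, ∀ y ∈ T, (y : ℝ) - x < L) :
    (T.card : ℝ) ≤ L + 1 := by
  rcases T.eq_empty_or_nonempty with rfl | hne
  · simp
    linarith
  · obtain ⟨m, hm, hmin⟩ := exists_min_image T id hne
    have hsub : T ⊆ Finset.Icc m (m + ⌊L⌋₊) := by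
      intro y hy
      rw [mem_Icc]
      refine ⟨hmin y hy, ?_⟩
      have h1 := hT m hm y hy
      have h2 : m ≤ y := hmin y hy
      have h3 : ((y - m : ℕ) : ℝ) < L := by
        rw [Nat.cast_sub h2]
        exact h1
      have h4 : y - m ≤ ⌊L⌋₊ := Nat.le_floor h3.le
      omega
    have h1 := card_le_card hsub
    rw [Nat.card_Icc] at h1
    have h2 : T.card ≤ ⌊L⌋₊ + 1 := by omega
    have h3 : ((⌊L⌋₊ : ℕ) : ℝ) ≤ L := Nat.floor_le hL
    have h4 : (T.card : ℝ) ≤ ((⌊L⌋₊ + 1 : ℕ) : ℝ) := by exact_mod_cast h2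
    push_cast at h4
    linarith

variable {ι : Type} [Fintype ι] [DecidableEq ι]

/-- the box -/
def box (ι : Type) [Fintype ι] [DecidableEq ι] (s0 N : ℕ) : Finset (ι → ℕ) :=
  Fintype.piFinset fun _ => Finset.Icc s0 N

lemma mem_box {s0 N : ℕ} {s : ι → ℕ} : s ∈ box ι s0 N ↔ ∀ i, s0 ≤ s i ∧ s i ≤ N := by
  rw [box, Fintype.mem_piFinset]
  exact forall_congr' fun i => mem_Icc

lemma card_box {s0 N : ℕ} (hs0 : 1 ≤ s0) : (box ι s0 N).card ≤ N ^ Fintype.card ι := by
  rw [box, Fintype.card_piFinset, prod_const, Nat.card_Icc, card_univ]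
  exact Nat.pow_le_pow_left (by omega) _

open Classical in
/-- tuples near a hyperplane -/
lemma card_hyper {s0 N : ℕ} (hs0 : 1 ≤ s0) (l : ι → ℝ) {m : ℝ} (hm : 0 < m) (hl : ∀ i, m ≤ l i)
    (u : ι → ℤ) (hu : u ≠ 0) {H : ℝ} (hH : 0 ≤ H) :
    (((box ι s0 N).filter fun s => |∑ i, (u i : ℝ) * (l i * s i)| < H).card : ℝ) ≤
      (2 * H / m + 1) * (N : ℝ) ^ (Fintype.card ι - 1) := by
  obtain ⟨i0, hi0⟩ : ∃ i, u i ≠ 0 := by
    by_contra h
    push Not at h
    exact hu (funext h)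
  set T := (box ι s0 N).filter fun s => |∑ i, (u i : ℝ) * (l i * s i)| < H with hT
  set g : (ι → ℕ) → (ι → ℕ) := fun s => Function.update s i0 0 with hg
  have himg : (T.image g).card ≤ N ^ (Fintype.card ι - 1) := by
    have h1 : T.image g ⊆ Fintype.piFinset fun i => if i = i0 then {0} else Finset.Icc s0 N := by
      intro t ht
      obtain ⟨s, hs, rfl⟩ := mem_image.1 ht
      rw [Fintype.mem_piFinset]
      intro i
      rw [hT, mem_filter, box, Fintype.mem_piFinset] at hs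
      by_cases hi : i = i0
      · subst hi
        simp [hg]
      · simp only [hg, Function.update_of_ne hi, if_neg hi]
        exact hs.1 i
    refine (card_le_card h1).trans ?_
    rw [Fintype.card_piFinset]
    have h2 : ∀ i, (if i = i0 then ({0} : Finset ℕ) else Finset.Icc s0 N).card =
        if i = i0 then 1 else (N + 1 - s0) := by
      intro i
      split_ifs
      · simp
      · rw [Nat.card_Icc]
    simp only [h2]
    rw [prod_ite, prod_const_one, one_mul, prod_const]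
    have h3 : (univ.filter fun i : ι => ¬ i = i0).card = Fintype.card ι - 1 := by
      rw [filter_not, filter_eq' univ i0, if_pos (mem_univ _), card_sdiff_of_subset
        (subset_univ _), card_univ, card_singleton]
    rw [h3]
    exact Nat.pow_le_pow_left (by omega) _
  -- fibres
  have hfib : ∀ t ∈ T.image g, ((T.filter fun s => g s = t).card : ℝ) ≤ 2 * H / m + 1 := by
    intro t _
    have hinj : Set.InjOn (fun s : ι → ℕ => s i0) ((T.filter fun s => g s = t) : Set (ι → ℕ)) := by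
      intro s hs s' hs' hss
      rw [mem_coe, mem_filter] at hs hs'
      funext i
      by_cases hi : i = i0
      · rw [hi]
        exact hss
      · have h1 : g s i = g s' i := by rw [hs.2, hs'.2]
        simpa only [hg, Function.update_of_ne hi] using h1
    rw [← card_image_of_injOn hinj]
    refine card_diam _ (by positivity) fun x hx y hy => ?_
    obtain ⟨s, hs, rfl⟩ := mem_image.1 hx
    obtain ⟨s', hs', rfl⟩ := mem_image.1 hy
    rw [mem_filter, hT, mem_filter] at hs hs'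
    have h1 : ∑ i, (u i : ℝ) * (l i * (s' i : ℝ)) - ∑ i, (u i : ℝ) * (l i * (s i : ℝ)) =
        u i0 * (l i0 * ((s' i0 : ℝ) - s i0)) := by
      rw [← sum_sub_distrib, sum_eq_single i0]
      · ring
      · intro i _ hi
        have h2 : g s i = g s' i := by rw [hs.2, hs'.2]
        simp only [hg, Function.update_of_ne hi] at h2
        rw [h2]
        ring
      · intro h
        exact absurd (mem_univ _) h
    have h2 : |(u i0 : ℝ) * (l i0 * ((s' i0 : ℝ) - s i0))| < 2 * H := by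
      rw [← h1]
      have := abs_sub (∑ i, (u i : ℝ) * (l i * (s' i : ℝ))) (∑ i, (u i : ℝ) * (l i * (s i : ℝ)))
      linarith [hs.1.2, hs'.1.2]
    have h3 : (1 : ℝ) ≤ |(u i0 : ℝ)| := by exact_mod_cast Int.one_le_abs hi0
    have hl0 : 0 < l i0 := lt_of_lt_of_le hm (hl i0)
    rw [abs_mul, abs_mul, abs_of_pos hl0] at h2
    have h4 : l i0 * |(s' i0 : ℝ) - s i0| ≤ |(u i0 : ℝ)| * (l i0 * |(s' i0 : ℝ) - s i0|) :=
      le_mul_of_one_le_left (by positivity) h3
    have h4' : m * |(s' i0 : ℝ) - s i0| ≤ l i0 * |(s' i0 : ℝ) - s i0| :=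
      mul_le_mul_of_nonneg_right (hl i0) (abs_nonneg _)
    have h5 := le_abs_self ((s' i0 : ℝ) - s i0)
    show ((s' i0 : ℕ) : ℝ) - ((s i0 : ℕ) : ℝ) < 2 * H / m
    rw [lt_div_iff₀ hm]
    nlinarith
  have hnat : T.card ≤ ⌊2 * H / m + 1⌋₊ * (T.image g).card := by
    refine card_le_mul_card_image _ _ fun t ht => ?_
    exact Nat.le_floor (hfib t ht)
  have h1 : (T.card : ℝ) ≤ (⌊2 * H / m + 1⌋₊ : ℝ) * ((T.image g).card : ℝ) := by
    exact_mod_cast hnat
  have h2 : ((⌊2 * H / m + 1⌋₊ : ℕ) : ℝ) ≤ 2 * H / m + 1 := Nat.floor_le (by positivity)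
  have h3 : ((T.image g).card : ℝ) ≤ (N : ℝ) ^ (Fintype.card ι - 1) := by exact_mod_cast himg
  calc (T.card : ℝ) ≤ (⌊2 * H / m + 1⌋₊ : ℝ) * ((T.image g).card : ℝ) := h1
    _ ≤ (2 * H / m + 1) * (N : ℝ) ^ (Fintype.card ι - 1) := by gcongr

open Classical in
/-- the tuples with a relation of height at most `exp h`, coefficients in the span of `v` -/
noncomputable def Bad {μ : Type} [Fintype μ] (z : ι → ℕ → ℂ) (v : μ → ℂ) (d s0 N : ℕ) (h : ℝ) :
    Finset (ι → ℕ) :=
  (box ι s0 N).filter fun s => ∃ a : (ι → Fin (d + 1)) → μ → ℤ, a ≠ 0 ∧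
    (∀ e j, |(a e j : ℝ)| ≤ Real.exp h) ∧
    ∑ e : ι → Fin (d + 1), (∑ j, (a e j : ℂ) * v j) *
      ∏ i, (z i (s i)) ^ ((e i : Fin (d + 1)) : ℕ) = 0

lemma mem_Bad {μ : Type} [Fintype μ] {z : ι → ℕ → ℂ} {v : μ → ℂ} {d s0 N : ℕ} {h : ℝ}
    {s : ι → ℕ} : s ∈ Bad z v d s0 N h ↔ (∀ i, s0 ≤ s i ∧ s i ≤ N) ∧
    ∃ a : (ι → Fin (d + 1)) → μ → ℤ, a ≠ 0 ∧ (∀ e j, |(a e j : ℝ)| ≤ Real.exp h) ∧
    ∑ e : ι → Fin (d + 1), (∑ j, (a e j : ℂ) * v j) *
      ∏ i, (z i (s i)) ^ ((e i : Fin (d + 1)) : ℕ) = 0 := by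
  classical
  rw [Bad, mem_filter, mem_box]

/-- **no resonances**: no relation -/
theorem no_rel (z : ι → ℕ → ℂ) (s0 : ℕ) (hz : ∀ i, Near (z i) s0) (d : ℕ) :
    ∃ (l : ι → ℝ) (A : ℝ), (∀ i, 0 < l i) ∧ 0 < A ∧ ∀ h : ℝ, 1 ≤ h → ∀ s : ι → ℕ, (∀ i, s0 ≤ s i) →
      (∀ u : ι → ℤ, u ≠ 0 → (∀ i, |u i| ≤ d) → A * h ≤ |∑ i, (u i : ℝ) * (l i * s i)|) →
      ∀ a : (ι → Fin (d + 1)) → ℤ, a ≠ 0 → (∀ e, |(a e : ℝ)| ≤ Real.exp h) →
      ∑ e : ι → Fin (d + 1), (a e : ℂ) * ∏ i, (z i (s i)) ^ ((e i : Fin (d + 1)) : ℕ) ≠ 0 := by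
  choose c hc l A' hl hA' hz using hz
  obtain ⟨κ, B, hκ, hB, hmain⟩ := tc_bound (ι := ι) c hc d
  -- a common constant
  set A0 : ℝ := ∏ i, A' i with hA0
  have hA0i : ∀ i, A' i ≤ A0 := by
    intro i
    rw [hA0, ← mul_prod_erase univ _ (mem_univ i)]
    exact le_mul_of_one_le_right (by linarith [hA' i])
      (by
        rw [← prod_const_one (s := univ.erase i)]
        exact prod_le_prod (fun _ _ => by norm_num) fun i _ => hA' i)
  have hA01 : 1 ≤ A0 := by
    rw [hA0, ← prod_const_one (s := (univ : Finset ι))]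
    exact prod_le_prod (fun _ _ => by norm_num) fun i _ => hA' i
  have hA00 : 0 < A0 := by linarith
  set k : ℕ := Fintype.card ι with hk
  -- the products
  have hlow : ∀ (s : ι → ℕ), (∀ i, s0 ≤ s i) → ∀ f : ι → Fin (d + 1),
      ((A0 ^ d) ^ k)⁻¹ * Real.exp (-(∑ i, (f i : ℝ) * (l i * s i))) ≤
        ‖∏ i, (z i (s i) - c i) ^ ((f i : Fin (d + 1)) : ℕ)‖ ∧
      ‖∏ i, (z i (s i) - c i) ^ ((f i : Fin (d + 1)) : ℕ)‖ ≤
        (A0 ^ d) ^ k * Real.exp (-(∑ i, (f i : ℝ) * (l i * s i))) := by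
    intro s hs f
    have e1 : Real.exp (-(∑ i, (f i : ℝ) * (l i * s i))) =
        ∏ i, (Real.exp (-(l i * s i))) ^ ((f i : Fin (d + 1)) : ℕ) := by
      rw [← sum_neg_distrib, Real.exp_sum]
      refine prod_congr rfl fun i _ => ?_
      rw [← Real.exp_nat_mul]
      congr 1
      ring
    have e2 : (A0 ^ d) ^ k = ∏ _i : ι, A0 ^ d := by rw [prod_const, card_univ]
    have e3 : ((A0 ^ d) ^ k)⁻¹ = ∏ _i : ι, (A0 ^ d)⁻¹ := by
      rw [prod_const, card_univ, inv_pow]
    rw [e1, e3, norm_prod]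
    constructor
    · rw [← prod_mul_distrib]
      refine prod_le_prod (fun i _ => by positivity) fun i _ => ?_
      rw [norm_pow]
      have h1 := (hz i (s i) (hs i)).1
      have h2 : A0⁻¹ * Real.exp (-(l i * s i)) ≤ ‖z i (s i) - c i‖ := by
        refine le_trans ?_ h1
        refine mul_le_mul_of_nonneg_right ?_ (Real.exp_pos _).le
        exact inv_anti₀ (by linarith [hA' i]) (hA0i i)
      calc (A0 ^ d)⁻¹ * Real.exp (-(l i * s i)) ^ ((f i : Fin (d + 1)) : ℕ) ≤
          (A0 ^ ((f i : Fin (d + 1)) : ℕ))⁻¹ * Real.exp (-(l i * s i)) ^ ((f i : Fin (d + 1)) : ℕ) := by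
            refine mul_le_mul_of_nonneg_right ?_ (by positivity)
            refine inv_anti₀ (by positivity) ?_
            exact pow_le_pow_right₀ hA01 (by have := (f i).2; omega)
        _ = (A0⁻¹ * Real.exp (-(l i * s i))) ^ ((f i : Fin (d + 1)) : ℕ) := by
            rw [mul_pow, inv_pow]
        _ ≤ _ := pow_le_pow_left₀ (by positivity) h2 _
    · rw [e2, ← prod_mul_distrib]
      refine prod_le_prod (fun i _ => by positivity) fun i _ => ?_
      rw [norm_pow]
      have h1 := (hz i (s i) (hs i)).2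
      have h2 : ‖z i (s i) - c i‖ ≤ A0 * Real.exp (-(l i * s i)) := by
        refine le_trans h1 ?_
        exact mul_le_mul_of_nonneg_right (hA0i i) (Real.exp_pos _).le
      calc ‖z i (s i) - c i‖ ^ ((f i : Fin (d + 1)) : ℕ) ≤
          (A0 * Real.exp (-(l i * s i))) ^ ((f i : Fin (d + 1)) : ℕ) :=
            pow_le_pow_left₀ (norm_nonneg _) h2 _
        _ = A0 ^ ((f i : Fin (d + 1)) : ℕ) * Real.exp (-(l i * s i)) ^ ((f i : Fin (d + 1)) : ℕ) := by
            rw [mul_pow]
        _ ≤ _ := by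
            refine mul_le_mul_of_nonneg_right ?_ (by positivity)
            exact pow_le_pow_right₀ hA01 (by have := (f i).2; omega)
  set P0 : ℝ := (A0 ^ d) ^ k with hP0
  have hP01 : 1 ≤ P0 := one_le_pow₀ (one_le_pow₀ hA01)
  have hP00 : 0 < P0 := by linarith
  have hB0 : 0 < B := by linarith
  set n0 : ℝ := ((Fintype.card (ι → Fin (d + 1)) : ℕ) : ℝ) with hn0
  have hn00 : 0 ≤ n0 := Nat.cast_nonneg _
  set a1 : ℝ := B ^ 2 * P0 ^ 2 * n0 with ha1
  have ha10 : 0 ≤ a1 := by positivity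
  refine ⟨l, 1 + κ + a1, hl, by positivity, fun h hh s hs hres a ha haC => ?_⟩
  have hX1 : 1 ≤ Real.exp h := Real.one_le_exp (by linarith)
  have hT : ∑ e : ι → Fin (d + 1), (a e : ℂ) * ∏ i, (z i (s i)) ^ ((e i : Fin (d + 1)) : ℕ) =
      ∑ f : ι → Fin (d + 1), tc c a f * ∏ i, (z i (s i) - c i) ^ ((f i : Fin (d + 1)) : ℕ) := by
    rw [← sum_translate]
    simp only [add_sub_cancel]
  rw [hT]
  obtain ⟨g, hg⟩ := tc_ne c a ha
  obtain ⟨f0, hf0, hmin⟩ := exists_min_image (univ.filter fun f => tc c a f ≠ 0)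
    (fun f : ι → Fin (d + 1) => ∑ i, (f i : ℝ) * (l i * s i))
    ⟨g, by rw [mem_filter]; exact ⟨mem_univ _, hg⟩⟩
  rw [mem_filter] at hf0
  set w : (ι → Fin (d + 1)) → ℝ := fun f => ∑ i, (f i : ℝ) * (l i * s i) with hw
  have hfirst : B⁻¹ * P0⁻¹ * Real.exp (-(κ * h)) * Real.exp (-(w f0)) ≤
      ‖tc c a f0 * ∏ i, (z i (s i) - c i) ^ ((f0 i : Fin (d + 1)) : ℕ)‖ := by
    rw [norm_mul]
    have h1 := ((hmain _ hX1 a haC f0).2 hf0.2)
    have h2 := (hlow s hs f0).1
    rw [← Real.exp_mul, mul_neg, mul_comm h κ] at h1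
    calc B⁻¹ * P0⁻¹ * Real.exp (-(κ * h)) * Real.exp (-(w f0)) =
        (B⁻¹ * Real.exp (-(κ * h))) * (P0⁻¹ * Real.exp (-(w f0))) := by ring
      _ ≤ _ := mul_le_mul h1 h2 (by positivity) (norm_nonneg _)
  refine dom_ne _ f0 (fun f hne => ?_) ?_
  · refine lt_of_lt_of_le ?_ hfirst
    by_cases hf : tc c a f = 0
    · rw [hf, zero_mul, norm_zero, zero_mul]
      positivity
    · have h1 := hmin f (by rw [mem_filter]; exact ⟨mem_univ _, hf⟩)
      have h2 := hres (fun i => ((f i : ℕ) : ℤ) - ((f0 i : ℕ) : ℤ)) (by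
        intro h0
        apply hne
        funext i
        have h3 := congrFun h0 i
        simp only [Pi.zero_apply] at h3
        exact Fin.ext (by omega)) (fun i => by
          have h3 := (f i).2
          have h4 := (f0 i).2
          rw [abs_le]
          constructor <;> omega)
      have h3 : ∑ i, ((((f i : ℕ) : ℤ) - ((f0 i : ℕ) : ℤ) : ℤ) : ℝ) * (l i * (s i : ℝ)) =
          w f - w f0 := by
        rw [hw]
        simp only
        rw [← sum_sub_distrib]
        refine sum_congr rfl fun i _ => ?_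
        push_cast
        ring
      rw [h3, abs_of_nonneg (by linarith)] at h2
      have h4 : ‖tc c a f * ∏ i, (z i (s i) - c i) ^ ((f i : Fin (d + 1)) : ℕ)‖ ≤
          (B * Real.exp h) * (P0 * Real.exp (-(w f))) := by
        rw [norm_mul]
        exact mul_le_mul (hmain _ hX1 a haC f).1 (hlow s hs f).2 (norm_nonneg _) (by positivity)
      have h5 : Real.exp (-(w f)) ≤ Real.exp (-(κ * h)) * Real.exp (-(w f0)) *
          (Real.exp (-h) * Real.exp (-(a1 * h))) := by
        rw [← Real.exp_add, ← Real.exp_add, ← Real.exp_add, Real.exp_le_exp]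
        nlinarith
      calc ‖tc c a f * ∏ i, (z i (s i) - c i) ^ ((f i : Fin (d + 1)) : ℕ)‖ * n0 ≤
          (B * Real.exp h) * (P0 * (Real.exp (-(κ * h)) * Real.exp (-(w f0)) *
          (Real.exp (-h) * Real.exp (-(a1 * h))))) * n0 := by
            refine mul_le_mul_of_nonneg_right (h4.trans ?_) hn00
            gcongr
        _ = B⁻¹ * P0⁻¹ * Real.exp (-(κ * h)) * Real.exp (-(w f0)) *
            (a1 * Real.exp (-(a1 * h))) := by
            have e1 : Real.exp (-h) = (Real.exp h)⁻¹ := Real.exp_neg h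
            rw [e1, ha1]
            have := Real.exp_pos h
            field_simp
        _ < B⁻¹ * P0⁻¹ * Real.exp (-(κ * h)) * Real.exp (-(w f0)) * 1 := by
            refine mul_lt_mul_of_pos_left ?_ (by positivity)
            rw [Real.exp_neg, ← div_eq_mul_inv, div_lt_one (Real.exp_pos _)]
            have h6 := Real.add_one_le_exp (a1 * h)
            nlinarith
        _ = _ := mul_one _
  · intro h0
    rw [h0, norm_zero] at hfirst
    have : 0 < B⁻¹ * P0⁻¹ * Real.exp (-(κ * h)) * Real.exp (-(w f0)) := by positivity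
    linarith

/-- **relations with integer coefficients are rare** -/
theorem pure (z : ι → ℕ → ℂ) (s0 : ℕ) (hs0 : 1 ≤ s0) (hz : ∀ i, Near (z i) s0) (d : ℕ) :
    ∃ A : ℝ, 0 < A ∧ ∀ (N : ℕ) (h : ℝ), 1 ≤ h →
      ((Bad z (fun _ : Unit => 1) d s0 N h).card : ℝ) ≤ A * (h / N) * (N : ℝ) ^ Fintype.card ι := by
  classical
  obtain ⟨l, A, hl, hA, hno⟩ := no_rel z s0 hz d
  obtain ⟨m, hm, hml⟩ : ∃ m : ℝ, 0 < m ∧ ∀ i, m ≤ l i := by
    rcases isEmpty_or_nonempty ι with hι | hι
    · exact ⟨1, one_pos, fun i => hι.elim i⟩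
    · obtain ⟨i0, -, hi0⟩ := exists_min_image (univ : Finset ι) l univ_nonempty
      exact ⟨l i0, hl i0, fun i => hi0 i (mem_univ i)⟩
  set U : Finset (ι → ℤ) := (Fintype.piFinset fun _ => Finset.Icc (-(d : ℤ)) d).erase 0 with hU
  refine ⟨1 + (U.card : ℝ) * (2 * A / m + 1), by positivity, fun N h hh => ?_⟩
  set T : Finset (ι → ℕ) :=
    U.biUnion fun u => (box ι s0 N).filter fun s => |∑ i, (u i : ℝ) * (l i * s i)| < A * h with hT
  have hsub : Bad z (fun _ : Unit => 1) d s0 N h ⊆ T := by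
    intro s hs
    rw [mem_Bad] at hs
    obtain ⟨hs, a, ha, haC, hrel⟩ := hs
    by_contra hcon
    refine hno h hh s (fun i => (hs i).1) (fun u hu hud => ?_) (fun e => a e ()) ?_
      (fun e => haC e ()) ?_
    · by_contra hlt
      push Not at hlt
      apply hcon
      rw [hT, mem_biUnion]
      refine ⟨u, ?_, ?_⟩
      · rw [hU, mem_erase, Fintype.mem_piFinset]
        exact ⟨hu, fun i => by rw [mem_Icc]; exact abs_le.1 (hud i)⟩
      · rw [mem_filter, mem_box]
        exact ⟨hs, hlt⟩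
    · intro h0
      apply ha
      funext e j
      exact congrFun h0 e
    · rw [← hrel]
      refine sum_congr rfl fun e _ => ?_
      simp
  have h2 : (T.card : ℝ) ≤ ∑ u ∈ U, (2 * (A * h) / m + 1) * (N : ℝ) ^ (Fintype.card ι - 1) := by
    have h3 : (T.card : ℝ) ≤ ∑ u ∈ U,
        (((box ι s0 N).filter fun s => |∑ i, (u i : ℝ) * (l i * s i)| < A * h).card : ℝ) := by
      rw [← Nat.cast_sum, Nat.cast_le, hT]
      exact card_biUnion_le
    refine h3.trans (sum_le_sum fun u hu => ?_)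
    rw [hU, mem_erase] at hu
    exact card_hyper hs0 l hm hml u hu.1 (by positivity)
  rcases isEmpty_or_nonempty ι with hι | hι
  · -- no hyperplane
    have hU0 : U = ∅ := by
      rw [hU]
      ext u
      simp only [mem_erase, notMem_empty, iff_false, not_and]
      intro hu
      exact absurd (Subsingleton.elim u 0) hu
    have hT0 : T = ∅ := by rw [hT, hU0, biUnion_empty]
    have h3 : (Bad z (fun _ : Unit => 1) d s0 N h).card = 0 := by
      rw [card_eq_zero, ← subset_empty, ← hT0]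
      exact hsub
    rw [h3, Nat.cast_zero]
    positivity
  · have hk : 1 ≤ Fintype.card ι := Fintype.card_pos
    rcases Nat.eq_zero_or_pos N with hN | hN
    · have h3 : Bad z (fun _ : Unit => 1) d s0 N h = ∅ := by
        rw [eq_empty_iff_forall_notMem]
        intro s hs
        rw [mem_Bad] at hs
        obtain ⟨i⟩ := hι
        have := hs.1 i
        omega
      rw [h3, card_empty, Nat.cast_zero]
      positivity
    · have hN' : (0 : ℝ) < N := by exact_mod_cast hN
      rw [sum_const, nsmul_eq_mul] at h2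
      have h4 : ((Bad z (fun _ : Unit => 1) d s0 N h).card : ℝ) ≤ T.card := by
        exact_mod_cast card_le_card hsub
      have h5 : h / N * (N : ℝ) ^ Fintype.card ι = h * (N : ℝ) ^ (Fintype.card ι - 1) := by
        have h6 : (N : ℝ) ^ Fintype.card ι = (N : ℝ) ^ (Fintype.card ι - 1) * N := by
          rw [← pow_succ, Nat.sub_add_cancel hk]
        rw [h6]
        field_simp
      rw [mul_assoc, h5]
      have h7 : (0 : ℝ) ≤ (N : ℝ) ^ (Fintype.card ι - 1) := by positivity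
      calc ((Bad z (fun _ : Unit => 1) d s0 N h).card : ℝ) ≤ T.card := h4
        _ ≤ (U.card : ℝ) * ((2 * (A * h) / m + 1) * (N : ℝ) ^ (Fintype.card ι - 1)) := h2
        _ ≤ (U.card : ℝ) * (((2 * A / m + 1) * h) * (N : ℝ) ^ (Fintype.card ι - 1)) := by
          gcongr
          have : 2 * (A * h) / m = 2 * A / m * h := by ring
          rw [this]
          nlinarith
        _ = ((U.card : ℝ) * (2 * A / m + 1)) * (h * (N : ℝ) ^ (Fintype.card ι - 1)) := by ring
        _ ≤ _ := by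
          refine mul_le_mul_of_nonneg_right (by linarith) (by positivity)

end Pool.Agent.X90.DA
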