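import Pool.Agent.X90.DA.Liou

/-!
# Polynomials in numbers exponentially close to algebraic numbers
-/

set_option autoImplicit false

namespace Pool.Agent.X90.DA

open Finset

/-- a sequence exponentially close to a nonzero... algebraic number: `‖z s - c‖ ≈ exp (- ℓ s)` -/
def Near (z : ℕ → ℂ) (s0 : ℕ) : Prop :=
  ∃ c : ℂ, IsAlgebraic ℚ c ∧ ∃ l A : ℝ, 0 < l ∧ 1 ≤ A ∧ ∀ s : ℕ, s0 ≤ s →
    A⁻¹ * Real.exp (-(l * s)) ≤ ‖z s - c‖ ∧ ‖z s - c‖ ≤ A * Real.exp (-(l * s))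

lemma add_pow_fin {d : ℕ} (e : Fin (d + 1)) (c x : ℂ) :
    (c + x) ^ (e : ℕ) = ∑ f : Fin (d + 1), (Nat.choose e f : ℂ) * c ^ ((e : ℕ) - f) * x ^ (f : ℕ) := by
  rw [add_comm, add_pow, Fin.sum_univ_eq_sum_range (fun f => (Nat.choose e f : ℂ) *
    c ^ ((e : ℕ) - f) * x ^ f)]
  have h1 : ∀ m ∈ range ((e : ℕ) + 1), x ^ m * c ^ ((e : ℕ) - m) * ((e : ℕ).choose m : ℂ) =
      ((e : ℕ).choose m : ℂ) * c ^ ((e : ℕ) - m) * x ^ m := by
    intro m _
    ring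
  rw [sum_congr rfl h1]
  refine sum_subset ?_ ?_
  · intro m hm
    rw [mem_range] at hm ⊢
    have := e.2
    omega
  · intro m _ hm
    rw [mem_range] at hm
    rw [Nat.choose_eq_zero_of_lt (by omega)]
    simp

variable {ι : Type} [Fintype ι] [DecidableEq ι] {d : ℕ}

lemma prod_expand (e : ι → Fin (d + 1)) (c x : ι → ℂ) :
    ∏ i, (c i + x i) ^ ((e i : Fin (d + 1)) : ℕ) =
      ∑ f : ι → Fin (d + 1), (∏ i, (Nat.choose (e i) (f i) : ℂ) * c i ^ ((e i : ℕ) - f i)) *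
        ∏ i, x i ^ ((f i : Fin (d + 1)) : ℕ) := by
  have h1 : ∀ i, (c i + x i) ^ ((e i : Fin (d + 1)) : ℕ) =
      ∑ f : Fin (d + 1), (Nat.choose (e i) f : ℂ) * c i ^ ((e i : ℕ) - f) * x i ^ (f : ℕ) :=
    fun i => add_pow_fin _ _ _
  simp only [h1]
  rw [prod_univ_sum, Fintype.piFinset_univ]
  exact sum_congr rfl fun f _ => prod_mul_distrib

/-- the coefficients of the translated polynomial -/
noncomputable def tc (c : ι → ℂ) (a : (ι → Fin (d + 1)) → ℤ) (f : ι → Fin (d + 1)) : ℂ :=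
  ∑ e, (a e : ℂ) * ∏ i, ((Nat.choose (e i) (f i) : ℂ) * c i ^ ((e i : ℕ) - f i))

lemma tc_ne (c : ι → ℂ) (a : (ι → Fin (d + 1)) → ℤ) (ha : a ≠ 0) : ∃ f, tc c a f ≠ 0 := by
  classical
  obtain ⟨e1, he1⟩ : ∃ e, a e ≠ 0 := by
    by_contra h
    push Not at h
    exact ha (funext h)
  obtain ⟨e0, he0, hmax⟩ := exists_max_image (univ.filter fun e => a e ≠ 0)
    (fun e : ι → Fin (d + 1) => ∑ i, ((e i : Fin (d + 1)) : ℕ))
    ⟨e1, by rw [mem_filter]; exact ⟨mem_univ _, he1⟩⟩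
  rw [mem_filter] at he0
  refine ⟨e0, ?_⟩
  rw [tc, sum_eq_single e0]
  · simpa using he0.2
  · intro e _ hne
    by_cases hae : a e = 0
    · rw [hae]
      simp
    · have h1 := hmax e (by rw [mem_filter]; exact ⟨mem_univ _, hae⟩)
      obtain ⟨i, hi⟩ : ∃ i, ((e i : Fin (d + 1)) : ℕ) < ((e0 i : Fin (d + 1)) : ℕ) := by
        by_contra hcon
        push Not at hcon
        apply hne
        have h2 : ∑ i, ((e i : Fin (d + 1)) : ℕ) = ∑ i, ((e0 i : Fin (d + 1)) : ℕ) :=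
          le_antisymm h1 (sum_le_sum fun i _ => hcon i)
        have h3 := (sum_eq_sum_iff_of_le (fun i _ => hcon i)).1 h2.symm
        funext i
        exact (Fin.ext (h3 i (mem_univ i))).symm
      rw [prod_eq_zero (mem_univ i), mul_zero]
      rw [Nat.choose_eq_zero_of_lt hi]
      simp
  · intro h
    exact absurd (mem_univ _) h

lemma sum_translate (c x : ι → ℂ) (a : (ι → Fin (d + 1)) → ℤ) :
    ∑ e : ι → Fin (d + 1), (a e : ℂ) * ∏ i, (c i + x i) ^ ((e i : Fin (d + 1)) : ℕ) =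
    ∑ f : ι → Fin (d + 1), tc c a f * ∏ i, x i ^ ((f i : Fin (d + 1)) : ℕ) := by
  classical
  simp only [prod_expand, tc]
  simp only [mul_sum, sum_mul]
  rw [sum_comm]
  refine sum_congr rfl fun f _ => ?_
  refine sum_congr rfl fun e _ => ?_
  ring

/-- bounds for the coefficients of the translated polynomial -/
lemma tc_bound (c : ι → ℂ) (hc : ∀ i, IsAlgebraic ℚ (c i)) (d : ℕ) :
    ∃ κ B : ℝ, 0 ≤ κ ∧ 1 ≤ B ∧ ∀ X : ℝ, 1 ≤ X → ∀ a : (ι → Fin (d + 1)) → ℤ,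
      (∀ e, |(a e : ℝ)| ≤ X) → ∀ f, ‖tc c a f‖ ≤ B * X ∧
        (tc c a f ≠ 0 → B⁻¹ * X ^ (-κ) ≤ ‖tc c a f‖) := by
  classical
  have h1 : ∀ f : ι → Fin (d + 1), ∃ κ a : ℝ, 0 ≤ κ ∧ 0 < a ∧ ∀ X : ℝ, 1 ≤ X →
      ∀ b : (ι → Fin (d + 1)) → ℤ, (∀ j, |(b j : ℝ)| ≤ X) →
      tc c b f ≠ 0 → a * X ^ (-κ) ≤ ‖tc c b f‖ := by
    intro f
    refine liou (fun e : ι → Fin (d + 1) =>
      ∏ i, ((Nat.choose (e i) (f i) : ℂ) * c i ^ ((e i : ℕ) - f i))) fun e => ?_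
    rw [← mem_algebraicClosure_iff]
    refine prod_mem fun i _ => ?_
    rw [mem_algebraicClosure_iff]
    exact (isAlgebraic_natCast _).mul ((hc i).pow _)
  choose κ a hκ ha hmain using h1
  set κ0 : ℝ := ∑ f, κ f with hκ0
  set B : ℝ := 1 + ∑ f : ι → Fin (d + 1), (a f)⁻¹ + ∑ f : ι → Fin (d + 1),
    ∑ e : ι → Fin (d + 1), ‖∏ i, ((Nat.choose (e i) (f i) : ℂ) * c i ^ ((e i : ℕ) - f i))‖ with hB
  have hs1 : 0 ≤ ∑ f : ι → Fin (d + 1), (a f)⁻¹ := sum_nonneg fun f _ => by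
    have := ha f
    positivity
  have hs2 : 0 ≤ ∑ f : ι → Fin (d + 1), ∑ e : ι → Fin (d + 1),
      ‖∏ i, ((Nat.choose (e i) (f i) : ℂ) * c i ^ ((e i : ℕ) - f i))‖ := by positivity
  refine ⟨κ0, B, sum_nonneg fun f _ => hκ f, by rw [hB]; linarith, fun X hX b hb f => ⟨?_, fun hne => ?_⟩⟩
  · calc ‖tc c b f‖ ≤ ∑ e : ι → Fin (d + 1), ‖(b e : ℂ) * ∏ i, ((Nat.choose (e i) (f i) : ℂ) * c i ^ ((e i : ℕ) - f i))‖ :=
          norm_sum_le _ _
      _ ≤ ∑ e : ι → Fin (d + 1), X * ‖∏ i, ((Nat.choose (e i) (f i) : ℂ) * c i ^ ((e i : ℕ) - f i))‖ := by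
          refine sum_le_sum fun e _ => ?_
          rw [norm_mul, Complex.norm_intCast]
          exact mul_le_mul_of_nonneg_right (hb e) (norm_nonneg _)
      _ = X * ∑ e : ι → Fin (d + 1), ‖∏ i, ((Nat.choose (e i) (f i) : ℂ) * c i ^ ((e i : ℕ) - f i))‖ := by
          rw [mul_sum]
      _ ≤ X * B := by
          refine mul_le_mul_of_nonneg_left ?_ (by linarith)
          have h2 := single_le_sum (f := fun f : ι → Fin (d + 1) => ∑ e : ι → Fin (d + 1),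
            ‖∏ i, ((Nat.choose (e i) (f i) : ℂ) * c i ^ ((e i : ℕ) - f i))‖)
            (fun _ _ => sum_nonneg fun _ _ => norm_nonneg _) (mem_univ f)
          rw [hB]
          linarith
      _ = B * X := mul_comm _ _
  · have h2 := hmain f X hX b hb hne
    refine le_trans ?_ h2
    have h3 : κ f ≤ κ0 := single_le_sum (fun f _ => hκ f) (mem_univ f)
    have h4 : B⁻¹ ≤ a f := by
      rw [inv_le_comm₀ (by rw [hB]; linarith) (ha f)]
      have h5 := single_le_sum (f := fun f : ι → Fin (d + 1) => (a f)⁻¹)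
        (fun f _ => by
          have := ha f
          positivity) (mem_univ f)
      rw [hB]
      linarith
    exact mul_le_mul h4 (Real.rpow_le_rpow_of_exponent_le hX (by linarith))
      (Real.rpow_nonneg (by linarith) _) (ha f).le

/-- a dominating term -/
lemma dom_ne {F : Type} [Fintype F] (T : F → ℂ) (f0 : F)
    (h : ∀ f, f ≠ f0 → ‖T f‖ * Fintype.card F < ‖T f0‖) (h0 : T f0 ≠ 0) : ∑ f, T f ≠ 0 := by
  classical
  intro hs
  rw [← add_sum_erase _ _ (mem_univ f0), add_eq_zero_iff_eq_neg] at hs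
  have h1 : ‖T f0‖ ≤ ∑ f ∈ univ.erase f0, ‖T f‖ := by
    rw [hs, norm_neg]
    exact norm_sum_le _ _
  have hpos : 0 < ‖T f0‖ := norm_pos_iff.2 h0
  have hcard : (0 : ℝ) < Fintype.card F := by
    exact_mod_cast Fintype.card_pos_iff.2 ⟨f0⟩
  have h2 : ∑ f ∈ univ.erase f0, ‖T f‖ ≤ ∑ _f ∈ univ.erase f0, ‖T f0‖ / Fintype.card F := by
    refine sum_le_sum fun f hf => ?_
    rw [le_div_iff₀ hcard]
    exact (h f (ne_of_mem_erase hf)).le
  rw [sum_const, card_erase_of_mem (mem_univ _), card_univ, nsmul_eq_mul,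
    Nat.cast_sub (Fintype.card_pos_iff.2 ⟨f0⟩)] at h2
  have h3 : ((Fintype.card F : ℝ) - ((1 : ℕ) : ℝ)) * (‖T f0‖ / Fintype.card F) < ‖T f0‖ := by
    rw [sub_mul, mul_div_cancel₀ _ hcard.ne']
    have : 0 < ((1 : ℕ) : ℝ) * (‖T f0‖ / Fintype.card F) := by positivity
    linarith
  linarith

end Pool.Agent.X90.DA
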