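import Pool.Agent.X90.DA.Elim

/-!
# Values of Dirichlet series at large integers
-/

set_option autoImplicit false

namespace Pool.Agent.X90.DA

open Finset Filter Topology

/-- the value of the Dirichlet series with coefficients `a n` of `(n + 1) ^ (-s)` -/
noncomputable def dval (a : ℕ → ℂ) (s : ℕ) : ℂ := ∑' n : ℕ, a n / ((n : ℂ) + 1) ^ s

lemma norm_term (a : ℕ → ℂ) (s n : ℕ) :
    ‖a n / ((n : ℂ) + 1) ^ s‖ = ‖a n‖ / ((n : ℝ) + 1) ^ s := by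
  rw [norm_div, norm_pow]
  congr 2
  have h1 : ((n : ℂ) + 1) = (((n : ℝ) + 1 : ℝ) : ℂ) := by push_cast; rfl
  rw [h1, Complex.norm_real, Real.norm_eq_abs, abs_of_nonneg (by positivity)]

lemma summ_mono (a : ℕ → ℂ) {σ s : ℕ} (hσ : Summable fun n : ℕ => ‖a n‖ / ((n : ℝ) + 1) ^ σ)
    (hs : σ ≤ s) : Summable fun n : ℕ => ‖a n‖ / ((n : ℝ) + 1) ^ s := by
  refine Summable.of_nonneg_of_le (fun n => by positivity) (fun n => ?_) hσ
  refine div_le_div_of_nonneg_left (norm_nonneg _) (by positivity) ?_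
  exact pow_le_pow_right₀ (by linarith [(Nat.cast_nonneg n : (0 : ℝ) ≤ n)]) hs

/-- the first nonzero coefficient dominates -/
theorem near_dser (a : ℕ → ℂ) (σ : ℕ) (hσ : Summable fun n : ℕ => ‖a n‖ / ((n : ℝ) + 1) ^ σ)
    (ha : ∃ n, 1 ≤ n ∧ a n ≠ 0) :
    ∃ s0 : ℕ, σ ≤ s0 ∧ ∀ s1, s0 ≤ s1 → Near (fun s => dval a s - a 0) s1 := by
  classical
  obtain ⟨hm1, hm⟩ := Nat.find_spec ha
  set m := Nat.find ha with hmdef
  have hmin : ∀ n, 1 ≤ n → n < m → a n = 0 := by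
    intro n hn hnm
    by_contra hne
    exact Nat.find_min ha hnm ⟨hn, hne⟩
  set S : ℝ := ∑' n : ℕ, ‖a n‖ / ((n : ℝ) + 1) ^ σ with hS
  have hS0 : 0 ≤ S := tsum_nonneg fun n => by positivity
  set q : ℝ := ((m : ℝ) + 1) / ((m : ℝ) + 2) with hq
  have hq0 : 0 < q := by positivity
  have hq1 : q < 1 := by
    rw [hq, div_lt_one (by positivity)]
    linarith
  have hap : 0 < ‖a m‖ := norm_pos_iff.2 hm
  -- the tail
  have htail : ∀ s, σ ≤ s → ‖dval a s - a 0 - a m / ((m : ℂ) + 1) ^ s‖ ≤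
      (S * ((m : ℝ) + 2) ^ σ) * (1 / ((m : ℝ) + 2) ^ s) := by
    intro s hs
    have hsum := summ_mono a hσ hs
    have hsumC : Summable fun n : ℕ => a n / ((n : ℂ) + 1) ^ s := by
      refine Summable.of_norm ?_
      simpa only [norm_term] using hsum
    have e1 : dval a s = ∑ n ∈ range (m + 1), a n / ((n : ℂ) + 1) ^ s +
        ∑' n : ℕ, a (n + (m + 1)) / (((n + (m + 1) : ℕ) : ℂ) + 1) ^ s := by
      rw [dval, hsumC.sum_add_tsum_nat_add (m + 1)]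
    have e2 : ∑ n ∈ range (m + 1), a n / ((n : ℂ) + 1) ^ s = a 0 + a m / ((m : ℂ) + 1) ^ s := by
      rw [sum_range_succ]
      congr 1
      rw [sum_eq_single 0]
      · simp
      · intro n hn hn0
        rw [mem_range] at hn
        rw [hmin n (by omega) hn, zero_div]
      · intro h
        exfalso
        apply h
        rw [mem_range]
        omega
    have e3 : dval a s - a 0 - a m / ((m : ℂ) + 1) ^ s =
        ∑' n : ℕ, a (n + (m + 1)) / (((n + (m + 1) : ℕ) : ℂ) + 1) ^ s := by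
      rw [e1, e2]
      ring
    rw [e3]
    have hsum2 := (summable_nat_add_iff (m + 1)).2 hσ
    have hb : ∀ n : ℕ, ‖a (n + (m + 1)) / (((n + (m + 1) : ℕ) : ℂ) + 1) ^ s‖ ≤
        (((m : ℝ) + 2) ^ σ * (1 / ((m : ℝ) + 2) ^ s)) *
          (‖a (n + (m + 1))‖ / (((n + (m + 1) : ℕ) : ℝ) + 1) ^ σ) := by
      intro n
      rw [norm_term]
      have h1 : ((m : ℝ) + 2) ≤ ((n + (m + 1) : ℕ) : ℝ) + 1 := by
        push_cast
        linarith [(Nat.cast_nonneg n : (0 : ℝ) ≤ n)]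
      have h2 : (((n + (m + 1) : ℕ) : ℝ) + 1) ^ s = (((n + (m + 1) : ℕ) : ℝ) + 1) ^ σ *
          (((n + (m + 1) : ℕ) : ℝ) + 1) ^ (s - σ) := by
        rw [← pow_add, Nat.add_sub_cancel' hs]
      have h3 : ((m : ℝ) + 2) ^ s = ((m : ℝ) + 2) ^ σ * ((m : ℝ) + 2) ^ (s - σ) := by
        rw [← pow_add, Nat.add_sub_cancel' hs]
      have h4 : ((m : ℝ) + 2) ^ (s - σ) ≤ (((n + (m + 1) : ℕ) : ℝ) + 1) ^ (s - σ) :=
        pow_le_pow_left₀ (by positivity) h1 _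
      rw [h2, h3]
      set y : ℝ := ((n + (m + 1) : ℕ) : ℝ) + 1 with hy
      have hy0 : 0 < y := by positivity
      have h5 : ((m : ℝ) + 2) ^ σ * (1 / (((m : ℝ) + 2) ^ σ * ((m : ℝ) + 2) ^ (s - σ))) *
          (‖a (n + (m + 1))‖ / y ^ σ) = ‖a (n + (m + 1))‖ / (y ^ σ * ((m : ℝ) + 2) ^ (s - σ)) := by
        field_simp
      rw [h5]
      refine div_le_div_of_nonneg_left (norm_nonneg _) (by positivity) ?_
      exact mul_le_mul_of_nonneg_left h4 (by positivity)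
    have hsumR := hsum2.mul_left (((m : ℝ) + 2) ^ σ * (1 / ((m : ℝ) + 2) ^ s))
    have h6 := tsum_of_norm_bounded hsumR.hasSum hb
    refine h6.trans ?_
    rw [tsum_mul_left]
    have h7 : ∑' n : ℕ, ‖a (n + (m + 1))‖ / (((n + (m + 1) : ℕ) : ℝ) + 1) ^ σ ≤ S := by
      rw [hS, ← hσ.sum_add_tsum_nat_add (m + 1)]
      exact le_add_of_nonneg_left (sum_nonneg fun n _ => by positivity)
    calc ((m : ℝ) + 2) ^ σ * (1 / ((m : ℝ) + 2) ^ s) *
          ∑' n : ℕ, ‖a (n + (m + 1))‖ / (((n + (m + 1) : ℕ) : ℝ) + 1) ^ σ ≤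
        ((m : ℝ) + 2) ^ σ * (1 / ((m : ℝ) + 2) ^ s) * S :=
          mul_le_mul_of_nonneg_left h7 (by positivity)
      _ = _ := by ring
  -- large s
  have hlim : ∀ᶠ s : ℕ in atTop, (S * ((m : ℝ) + 2) ^ σ) * q ^ s < ‖a m‖ / 2 := by
    have h1 : Tendsto (fun s : ℕ => (S * ((m : ℝ) + 2) ^ σ) * q ^ s) atTop
        (𝓝 ((S * ((m : ℝ) + 2) ^ σ) * 0)) :=
      (tendsto_pow_atTop_nhds_zero_of_lt_one hq0.le hq1).const_mul _
    rw [mul_zero] at h1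
    exact h1.eventually (gt_mem_nhds (by positivity))
  obtain ⟨s0, hs0⟩ := eventually_atTop.1 hlim
  refine ⟨s0 + σ, Nat.le_add_left _ _, fun s1 hs1 => ⟨0, isAlgebraic_zero, Real.log ((m : ℝ) + 1),
    1 + 2 * ‖a m‖ + 2 * ‖a m‖⁻¹, Real.log_pos (by
      have : (1 : ℝ) ≤ m := by exact_mod_cast hm1
      linarith), by
      have : 0 ≤ 2 * ‖a m‖ + 2 * ‖a m‖⁻¹ := by positivity
      linarith, fun s hs => ?_⟩⟩
  have hexp : Real.exp (-(Real.log ((m : ℝ) + 1) * s)) = 1 / ((m : ℝ) + 1) ^ s := by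
    rw [← neg_mul, mul_comm, Real.exp_nat_mul, Real.exp_neg, Real.exp_log (by positivity), inv_pow,
      one_div]
  rw [hexp, sub_zero]
  have h1 := htail s (by omega)
  have h2 := hs0 s (by omega)
  have h3 : (S * ((m : ℝ) + 2) ^ σ) * (1 / ((m : ℝ) + 2) ^ s) ≤
      ‖a m‖ / 2 * (1 / ((m : ℝ) + 1) ^ s) := by
    have e1 : (1 : ℝ) / ((m : ℝ) + 2) ^ s = q ^ s * (1 / ((m : ℝ) + 1) ^ s) := by
      rw [hq, div_pow]
      field_simp
    rw [e1, ← mul_assoc]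
    exact mul_le_mul_of_nonneg_right h2.le (by positivity)
  have h4 : ‖a m / ((m : ℂ) + 1) ^ s‖ = ‖a m‖ * (1 / ((m : ℝ) + 1) ^ s) := by
    rw [norm_term, mul_one_div]
  set E : ℝ := 1 / ((m : ℝ) + 1) ^ s with hE
  have hE0 : 0 < E := by positivity
  have h5 : ‖dval a s - a 0‖ ≤ ‖a m / ((m : ℂ) + 1) ^ s‖ +
      ‖dval a s - a 0 - a m / ((m : ℂ) + 1) ^ s‖ := by
    have := norm_add_le (a m / ((m : ℂ) + 1) ^ s) (dval a s - a 0 - a m / ((m : ℂ) + 1) ^ s)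
    rwa [add_sub_cancel] at this
  have h6 : ‖a m / ((m : ℂ) + 1) ^ s‖ - ‖dval a s - a 0 - a m / ((m : ℂ) + 1) ^ s‖ ≤
      ‖dval a s - a 0‖ := by
    have := norm_sub_norm_le (a m / ((m : ℂ) + 1) ^ s)
      (-(dval a s - a 0 - a m / ((m : ℂ) + 1) ^ s))
    rw [norm_neg, sub_neg_eq_add, add_sub_cancel] at this
    exact this
  constructor
  · refine le_trans ?_ h6
    rw [h4]
    have h7 : (1 + 2 * ‖a m‖ + 2 * ‖a m‖⁻¹)⁻¹ ≤ ‖a m‖ / 2 := by
      rw [inv_le_comm₀ (by positivity) (by positivity), inv_div]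
      have : 2 / ‖a m‖ = 2 * ‖a m‖⁻¹ := div_eq_mul_inv _ _
      rw [this]
      linarith
    calc (1 + 2 * ‖a m‖ + 2 * ‖a m‖⁻¹)⁻¹ * E ≤ ‖a m‖ / 2 * E :=
          mul_le_mul_of_nonneg_right h7 hE0.le
      _ ≤ _ := by linarith
  · have h8 : 0 ≤ ‖a m‖⁻¹ := by positivity
    calc ‖dval a s - a 0‖ ≤ ‖a m‖ * E + ‖a m‖ / 2 * E := by
          rw [h4] at h5
          linarith
      _ ≤ (1 + 2 * ‖a m‖ + 2 * ‖a m‖⁻¹) * E := by nlinarith

end Pool.Agent.X90.DA
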