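import Pool.Agent.X90.DA.Count

/-!
# Elimination of arbitrary constants
-/

set_option autoImplicit false

namespace Pool.Agent.X90.DA

open Finset

/-- splitting of functions on a sum type -/
lemma sum_arrow {ι κ : Type} [Fintype ι] [DecidableEq ι] [Fintype κ] [DecidableEq κ] {d : ℕ}
    (F : (ι ⊕ κ → Fin (d + 1)) → ℂ) :
    ∑ g : ι ⊕ κ → Fin (d + 1), F g = ∑ e : ι → Fin (d + 1), ∑ e' : κ → Fin (d + 1), F (Sum.elim e e') := by
  rw [← Finset.sum_product', ← Finset.univ_product_univ.symm]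
  refine Fintype.sum_equiv (Equiv.sumArrowEquivProdArrow ι κ (Fin (d + 1))) _ _ fun g => ?_
  congr 1
  funext x
  cases x <;> rfl

variable {ι : Type} [Fintype ι] [DecidableEq ι]

/-- the value of an array -/
noncomputable def ev {d : ℕ} (z : ι → ℕ → ℂ) (a : (ι → Fin (d + 1)) → ℤ) (s : ι → ℕ) : ℂ :=
  ∑ e : ι → Fin (d + 1), (a e : ℂ) * ∏ i, (z i (s i)) ^ ((e i : Fin (d + 1)) : ℕ)

lemma ev_sum {d : ℕ} {μ : Type} [Fintype μ] (z : ι → ℕ → ℂ) (v : μ → ℂ)
    (a : (ι → Fin (d + 1)) → μ → ℤ) (s : ι → ℕ) :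
    ∑ e : ι → Fin (d + 1), (∑ j, (a e j : ℂ) * v j) *
      ∏ i, (z i (s i)) ^ ((e i : Fin (d + 1)) : ℕ) = ∑ j, v j * ev z (fun e => a e j) s := by
  simp only [ev, mul_sum, sum_mul]
  rw [sum_comm]
  refine sum_congr rfl fun j _ => sum_congr rfl fun e _ => ?_
  ring

/-- product of two arrays in separate variables -/
lemma ev_prod {d : ℕ} (z : ι → ℕ → ℂ) (a b : (ι → Fin (d + 1)) → ℤ) (s t : ι → ℕ) :
    ev (ι := ι ⊕ ι) (Sum.elim z z) (fun g => a (g ∘ Sum.inl) * b (g ∘ Sum.inr)) (Sum.elim s t) =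
      ev z a s * ev z b t := by
  rw [ev, sum_arrow, ev, ev, sum_mul_sum]
  refine sum_congr rfl fun e _ => sum_congr rfl fun e' _ => ?_
  rw [Fintype.prod_sum_type]
  simp only [Sum.elim_inl, Sum.elim_inr, Sum.elim_comp_inl, Sum.elim_comp_inr]
  push_cast
  ring

lemma ev_sub {d : ℕ} (z : ι → ℕ → ℂ) (a b : (ι → Fin (d + 1)) → ℤ) (s : ι → ℕ) :
    ev z (fun e => a e - b e) s = ev z a s - ev z b s := by
  simp only [ev, ← sum_sub_distrib]
  refine sum_congr rfl fun e _ => ?_
  push_cast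
  ring

lemma mem_Bad' {μ : Type} [Fintype μ] {z : ι → ℕ → ℂ} {v : μ → ℂ} {d s0 N : ℕ} {h : ℝ}
    {s : ι → ℕ} : s ∈ Bad z v d s0 N h ↔ (∀ i, s0 ≤ s i ∧ s i ≤ N) ∧
    ∃ a : (ι → Fin (d + 1)) → μ → ℤ, a ≠ 0 ∧ (∀ e j, |(a e j : ℝ)| ≤ Real.exp h) ∧
      ∑ j, v j * ev z (fun e => a e j) s = 0 := by
  rw [mem_Bad]
  simp only [ev_sum]

lemma Bad_card_le {μ : Type} [Fintype μ] (z : ι → ℕ → ℂ) (v : μ → ℂ) (d s0 N : ℕ) (hs0 : 1 ≤ s0)
    (h : ℝ) : ((Bad z v d s0 N h).card : ℝ) ≤ (N : ℝ) ^ Fintype.card ι := by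
  have h1 : (Bad z v d s0 N h).card ≤ N ^ Fintype.card ι := by
    refine (card_le_card ?_).trans (card_box (ι := ι) (N := N) hs0)
    intro s hs
    rw [mem_Bad] at hs
    exact mem_box.2 hs.1
  exact_mod_cast h1

lemma rpow_compare {x a b : ℝ} (hx0 : 0 ≤ x) (hx : x ≤ 1) (hb : 0 < b) (hab : b ≤ a) :
    x ^ a ≤ x ^ b := by
  rcases hx0.eq_or_lt with h | h
  · rw [← h, Real.zero_rpow (by linarith), Real.zero_rpow hb.ne']
  · exact Real.rpow_le_rpow_of_exponent_ge h hx hab

/-- the tuples that remain -/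
noncomputable def Rem {M : ℕ} (z : ι → ℕ → ℂ) (v : Fin (M + 2) → ℂ) (d s0 N : ℕ) (h : ℝ) :
    Finset (ι → ℕ) :=
  Bad z v d s0 N h \ (Bad z (fun j : Fin (M + 1) => v j.castSucc) d s0 N h ∪
    Bad z (fun _ : Unit => 1) d s0 N h)

lemma last_ne {M : ℕ} {z : ι → ℕ → ℂ} {v : Fin (M + 2) → ℂ} {d s0 N : ℕ} {h : ℝ} {s : ι → ℕ}
    (hs : s ∈ Rem z v d s0 N h) : (∀ i, s0 ≤ s i ∧ s i ≤ N) ∧
    ∃ a : (ι → Fin (d + 1)) → Fin (M + 2) → ℤ, (∀ e j, |(a e j : ℝ)| ≤ Real.exp h) ∧
      ∑ j, v j * ev z (fun e => a e j) s = 0 ∧ (∃ e, a e (Fin.last (M + 1)) ≠ 0) ∧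
      ev z (fun e => a e (Fin.last (M + 1))) s ≠ 0 := by
  classical
  rw [Rem, mem_sdiff, mem_union, not_or] at hs
  obtain ⟨h1, h2, h3⟩ := hs
  rw [mem_Bad'] at h1
  obtain ⟨hb, a, ha, haC, hrel⟩ := h1
  have hne : ∃ e, a e (Fin.last (M + 1)) ≠ 0 := by
    by_contra hcon
    push Not at hcon
    apply h2
    rw [mem_Bad']
    refine ⟨hb, fun e j => a e j.castSucc, ?_, fun e j => haC e _, ?_⟩
    · intro h0
      apply ha
      funext e j
      refine Fin.lastCases ?_ (fun i => ?_) j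
      · exact hcon e
      · exact congrFun (congrFun h0 e) i
    · rw [Fin.sum_univ_castSucc] at hrel
      have h5 : ev z (fun e => a e (Fin.last (M + 1))) s = 0 := by
        rw [ev]
        exact sum_eq_zero fun e _ => by rw [hcon e]; simp
      rw [h5, mul_zero, add_zero] at hrel
      exact hrel
  refine ⟨hb, a, haC, hrel, hne, fun h0 => h3 ?_⟩
  rw [mem_Bad']
  refine ⟨hb, fun e _ => a e (Fin.last (M + 1)), ?_, fun e _ => haC e _, ?_⟩
  · intro h0
    obtain ⟨e, he⟩ := hne
    exact he (congrFun (congrFun h0 e) ())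
  · simp only [univ_unique, sum_singleton, one_mul]
    exact h0

/-- **one step of the elimination** -/
lemma pair {M : ℕ} (z : ι → ℕ → ℂ) (v : Fin (M + 2) → ℂ) (hv : LinearIndependent ℚ v)
    (d s0 N : ℕ) (h : ℝ) {s t : ι → ℕ} (hs : s ∈ Rem z v d s0 N h)
    (ht : t ∈ Rem z v d s0 N h) :
    Sum.elim s t ∈ Bad (ι := ι ⊕ ι) (Sum.elim z z) (fun j : Fin (M + 1) => v j.castSucc) d s0 N
      (2 * h + 1) := by
  classical
  obtain ⟨hbs, a, haC, hra, hae, hea⟩ := last_ne hs
  obtain ⟨hbt, b, hbC, hrb, ⟨e1, he1⟩, heb⟩ := last_ne ht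
  set L := Fin.last (M + 1) with hL
  rw [mem_Bad']
  refine ⟨fun i => ?_, fun g j => a (g ∘ Sum.inl) j.castSucc * b (g ∘ Sum.inr) L -
    a (g ∘ Sum.inl) L * b (g ∘ Sum.inr) j.castSucc, ?_, fun g j => ?_, ?_⟩
  · cases i with
    | inl i => exact hbs i
    | inr i => exact hbt i
  · intro h0
    have h1 : ∀ e j, a e (Fin.castSucc j) * b e1 L = a e L * b e1 (Fin.castSucc j) := by
      intro e j
      have h2 := congrFun (congrFun h0 (Sum.elim e e1)) j
      simp only [Sum.elim_comp_inl, Sum.elim_comp_inr, Pi.zero_apply] at h2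
      linarith
    have h1' : ∀ e j, a e j * b e1 L = a e L * b e1 j := by
      intro e j
      refine Fin.lastCases ?_ (fun i => ?_) j
      · rfl
      · exact h1 e i
    have h3 : ∀ j, (b e1 L : ℂ) * ev z (fun e => a e j) s = (b e1 j : ℂ) * ev z (fun e => a e L) s := by
      intro j
      simp only [ev, mul_sum]
      refine sum_congr rfl fun e _ => ?_
      have h4 : (a e j : ℂ) * (b e1 L : ℂ) = (a e L : ℂ) * (b e1 j : ℂ) := by exact_mod_cast h1' e j
      calc (b e1 L : ℂ) * ((a e j : ℂ) * ∏ i, (z i (s i)) ^ ((e i : Fin (d + 1)) : ℕ)) =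
          ((a e j : ℂ) * (b e1 L : ℂ)) * ∏ i, (z i (s i)) ^ ((e i : Fin (d + 1)) : ℕ) := by ring
        _ = _ := by rw [h4]; ring
    have h5 : (∑ j, (b e1 j : ℂ) * v j) * ev z (fun e => a e L) s = 0 := by
      calc (∑ j, (b e1 j : ℂ) * v j) * ev z (fun e => a e L) s =
          ∑ j, v j * ((b e1 j : ℂ) * ev z (fun e => a e L) s) := by
            rw [sum_mul]
            exact sum_congr rfl fun j _ => by ring
        _ = ∑ j, v j * ((b e1 L : ℂ) * ev z (fun e => a e j) s) := by simp only [h3]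
        _ = (b e1 L : ℂ) * ∑ j, v j * ev z (fun e => a e j) s := by
            rw [mul_sum]
            exact sum_congr rfl fun j _ => by ring
        _ = 0 := by rw [hra, mul_zero]
    rcases mul_eq_zero.1 h5 with h6 | h6
    · have h7 := Fintype.linearIndependent_iff.1 hv (fun j => (b e1 j : ℚ)) (by
        rw [← h6]
        refine sum_congr rfl fun j _ => ?_
        rw [Algebra.smul_def]
        simp) L
      apply he1
      exact_mod_cast h7
    · exact hea h6
  · push_cast
    have h1 : |(a (g ∘ Sum.inl) j.castSucc : ℝ) * (b (g ∘ Sum.inr) L : ℝ)| ≤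
        Real.exp h * Real.exp h := by
      rw [abs_mul]
      exact mul_le_mul (haC _ _) (hbC _ _) (abs_nonneg _) (Real.exp_pos _).le
    have h2 : |(a (g ∘ Sum.inl) L : ℝ) * (b (g ∘ Sum.inr) j.castSucc : ℝ)| ≤
        Real.exp h * Real.exp h := by
      rw [abs_mul]
      exact mul_le_mul (haC _ _) (hbC _ _) (abs_nonneg _) (Real.exp_pos _).le
    refine (abs_sub _ _).trans ?_
    have h3 : Real.exp (2 * h + 1) = Real.exp h * Real.exp h * Real.exp 1 := by
      rw [← Real.exp_add, ← Real.exp_add]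
      congr 1
      ring
    rw [h3]
    have h4 : (2 : ℝ) ≤ Real.exp 1 := by
      have := Real.add_one_le_exp (1 : ℝ)
      linarith
    have h5 : 0 < Real.exp h * Real.exp h := by positivity
    nlinarith
  · have h1 : ∀ j : Fin (M + 1), ev (ι := ι ⊕ ι) (Sum.elim z z) (fun g => a (g ∘ Sum.inl) j.castSucc *
        b (g ∘ Sum.inr) L - a (g ∘ Sum.inl) L * b (g ∘ Sum.inr) j.castSucc) (Sum.elim s t) =
        ev z (fun e => a e j.castSucc) s * ev z (fun e => b e L) t -
        ev z (fun e => a e L) s * ev z (fun e => b e j.castSucc) t := by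
      intro j
      rw [ev_sub (ι := ι ⊕ ι) (Sum.elim z z) (fun g => a (g ∘ Sum.inl) j.castSucc *
        b (g ∘ Sum.inr) L) (fun g => a (g ∘ Sum.inl) L * b (g ∘ Sum.inr) j.castSucc),
        ev_prod z (fun e => a e j.castSucc) (fun e => b e L) s t,
        ev_prod z (fun e => a e L) (fun e => b e j.castSucc) s t]
    simp only [h1]
    rw [Fin.sum_univ_castSucc] at hra hrb
    have h2 : ∑ j : Fin (M + 1), v j.castSucc * (ev z (fun e => a e j.castSucc) s *
        ev z (fun e => b e L) t - ev z (fun e => a e L) s * ev z (fun e => b e j.castSucc) t) =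
        (∑ j : Fin (M + 1), v j.castSucc * ev z (fun e => a e j.castSucc) s) *
          ev z (fun e => b e L) t -
        ev z (fun e => a e L) s *
          ∑ j : Fin (M + 1), v j.castSucc * ev z (fun e => b e j.castSucc) t := by
      rw [sum_mul, mul_sum, ← sum_sub_distrib]
      exact sum_congr rfl fun j _ => by ring
    rw [h2]
    have h3 : ∑ j : Fin (M + 1), v j.castSucc * ev z (fun e => a e j.castSucc) s =
      -(v L * ev z (fun e => a e L) s) := by linear_combination hra
    have h4 : ∑ j : Fin (M + 1), v j.castSucc * ev z (fun e => b e j.castSucc) t =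
      -(v L * ev z (fun e => b e L) t) := by linear_combination hrb
    rw [h3, h4]
    ring

lemma card_Rem {M : ℕ} (z : ι → ℕ → ℂ) (v : Fin (M + 2) → ℂ) (hv : LinearIndependent ℚ v)
    (d s0 N : ℕ) (h : ℝ) : (Rem z v d s0 N h).card * (Rem z v d s0 N h).card ≤
    (Bad (ι := ι ⊕ ι) (Sum.elim z z) (fun j : Fin (M + 1) => v j.castSucc) d s0 N
      (2 * h + 1)).card := by
  classical
  rw [← card_product]
  refine card_le_card_of_injOn (fun p => Sum.elim p.1 p.2) (fun p hp => ?_) ?_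
  · rw [mem_coe, mem_product] at hp
    exact pair z v hv d s0 N h hp.1 hp.2
  · rintro ⟨s, t⟩ _ ⟨s', t'⟩ _ heq
    simp only at heq
    have h1 : s = s' := by
      funext i
      exact congrFun heq (Sum.inl i)
    have h2 : t = t' := by
      funext i
      exact congrFun heq (Sum.inr i)
    rw [h1, h2]

/-- **elimination**: relations with arbitrary constants are rare -/
theorem elim (M : ℕ) : ∀ (ι : Type) [Fintype ι] [DecidableEq ι] (z : ι → ℕ → ℂ) (s0 : ℕ)
    (_ : 1 ≤ s0) (_ : ∀ i, Near (z i) s0) (d : ℕ) (v : Fin (M + 1) → ℂ)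
    (_ : LinearIndependent ℚ v), ∃ A : ℝ, 0 < A ∧ ∀ (N : ℕ) (h : ℝ), 1 ≤ h →
      ((Bad z v d s0 N h).card : ℝ) ≤
        A * (h / N) ^ ((1 / 2 : ℝ) ^ M) * (N : ℝ) ^ Fintype.card ι := by
  classical
  induction M with
  | zero =>
    intro ι _ _ z s0 hs0 hz d v hv
    obtain ⟨A, hA, h1⟩ := pure z s0 hs0 hz d
    refine ⟨A, hA, fun N h hh => ?_⟩
    rw [pow_zero, Real.rpow_one]
    refine le_trans ?_ (h1 N h hh)
    have h2 : Bad z v d s0 N h ⊆ Bad z (fun _ : Unit => 1) d s0 N h := by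
      intro s hs
      rw [mem_Bad'] at hs ⊢
      obtain ⟨hb, a, ha, haC, hrel⟩ := hs
      refine ⟨hb, fun e _ => a e 0, ?_, fun e _ => haC e 0, ?_⟩
      · intro h0
        apply ha
        funext e j
        have hj : j = 0 := Subsingleton.elim (α := Fin 1) j 0
        rw [hj]
        exact congrFun (congrFun h0 e) ()
      · have hrel' : v 0 * ev z (fun e => a e 0) s = 0 := by
          rw [← hrel]
          exact (Fin.sum_univ_one (fun j : Fin 1 => v j * ev z (fun e => a e j) s)).symm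
        replace hrel := hrel'
        rcases mul_eq_zero.1 hrel with h3 | h3
        · exact absurd h3 (hv.ne_zero 0)
        · simpa using h3
    exact_mod_cast card_le_card h2
  | succ M ih =>
    intro ι _ _ z s0 hs0 hz d v hv
    have hv' : LinearIndependent ℚ (fun j : Fin (M + 1) => v j.castSucc) :=
      hv.comp _ (Fin.castSucc_injective _)
    obtain ⟨A1, hA1, h1⟩ := pure z s0 hs0 hz d
    obtain ⟨A2, hA2, h2⟩ := ih ι z s0 hs0 hz d _ hv'
    obtain ⟨A3, hA3, h3⟩ := ih (ι ⊕ ι) (Sum.elim z z) s0 hs0 (fun i => by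
      cases i with
      | inl i => exact hz i
      | inr i => exact hz i) d _ hv'
    set κ : ℝ := (1 / 2 : ℝ) ^ M with hκ
    have hκ0 : 0 < κ := by positivity
    have hκ1 : κ ≤ 1 := pow_le_one₀ (by norm_num) (by norm_num)
    have hκ' : (1 / 2 : ℝ) ^ (M + 1) = κ / 2 := by rw [pow_succ, ← hκ]; ring
    rw [hκ']
    refine ⟨1 + A1 + A2 + 2 * (1 + A3), by positivity, fun N h hh => ?_⟩
    set x : ℝ := h / N with hx
    have hx0 : 0 ≤ x := by positivity
    set K : ℝ := (N : ℝ) ^ Fintype.card ι with hK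
    have hK0 : 0 ≤ K := by positivity
    rcases le_or_gt x 1 with hx1 | hx1
    · have e1 : x ≤ x ^ (κ / 2) := by
        have := rpow_compare hx0 hx1 (half_pos hκ0) (show κ / 2 ≤ 1 by linarith)
        rwa [Real.rpow_one] at this
      have e2 : x ^ κ ≤ x ^ (κ / 2) := rpow_compare hx0 hx1 (half_pos hκ0) (by linarith)
      have g1 := h1 N h hh
      have g2 := h2 N h hh
      have g3 := h3 N (2 * h + 1) (by linarith)
      have g4 : ((Rem z v d s0 N h).card : ℝ) * (Rem z v d s0 N h).card ≤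
          (Bad (ι := ι ⊕ ι) (Sum.elim z z) (fun j : Fin (M + 1) => v j.castSucc) d s0 N
            (2 * h + 1)).card := by exact_mod_cast card_Rem z v hv d s0 N h
      have e3 : ((2 * h + 1) / N) ^ κ ≤ 4 * x ^ κ := by
        have q1 : (2 * h + 1) / N ≤ 4 * x := by
          rw [hx, ← mul_div_assoc]
          exact div_le_div_of_nonneg_right (by linarith) (Nat.cast_nonneg _)
        calc ((2 * h + 1) / N) ^ κ ≤ (4 * x) ^ κ :=
              Real.rpow_le_rpow (by positivity) q1 hκ0.le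
          _ = 4 ^ κ * x ^ κ := Real.mul_rpow (by norm_num) hx0
          _ ≤ 4 * x ^ κ := by
              refine mul_le_mul_of_nonneg_right ?_ (Real.rpow_nonneg hx0 _)
              have := Real.rpow_le_rpow_of_exponent_le (show (1 : ℝ) ≤ 4 by norm_num) hκ1
              rwa [Real.rpow_one] at this
      have e4 : (N : ℝ) ^ Fintype.card (ι ⊕ ι) = K * K := by
        rw [Fintype.card_sum, pow_add]
      rw [e4] at g3
      set y : ℝ := x ^ (κ / 2) with hy
      have hy0 : 0 ≤ y := Real.rpow_nonneg hx0 _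
      have e5 : x ^ κ = y * y := by
        rw [hy, ← Real.rpow_add_of_nonneg hx0 (by linarith) (by linarith), add_halves]
      set R : ℝ := ((Rem z v d s0 N h).card : ℝ) with hR
      have hR0 : 0 ≤ R := Nat.cast_nonneg _
      have g5 : R ≤ 2 * (1 + A3) * (y * K) := by
        have q1 : R * R ≤ 4 * A3 * (y * K) * (y * K) := by
          calc R * R ≤ A3 * ((2 * h + 1) / N) ^ κ * (K * K) := g4.trans g3
            _ ≤ A3 * (4 * x ^ κ) * (K * K) := by gcongr
            _ = 4 * A3 * (y * K) * (y * K) := by rw [e5]; ring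
        have hyK : 0 ≤ y * K := by positivity
        by_contra hcon
        push Not at hcon
        have q2 := mul_self_lt_mul_self (by positivity) hcon
        have q3 : 4 * A3 * (y * K) * (y * K) ≤
            2 * (1 + A3) * (y * K) * (2 * (1 + A3) * (y * K)) := by
          have q4 : 0 ≤ (y * K) * (y * K) := by positivity
          have q5 : A3 ≤ (1 + A3) * (1 + A3) := by nlinarith
          nlinarith
        linarith
      have g6 : ((Bad z v d s0 N h).card : ℝ) ≤
          (Bad z (fun j : Fin (M + 1) => v j.castSucc) d s0 N h).card +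
          (Bad z (fun _ : Unit => 1) d s0 N h).card + R := by
        have q1 : Bad z v d s0 N h ⊆ (Bad z (fun j : Fin (M + 1) => v j.castSucc) d s0 N h ∪
            Bad z (fun _ : Unit => 1) d s0 N h) ∪ Rem z v d s0 N h := by
          intro s hs
          by_cases h5 : s ∈ Bad z (fun j : Fin (M + 1) => v j.castSucc) d s0 N h ∪
            Bad z (fun _ : Unit => 1) d s0 N h
          · exact mem_union_left _ h5
          · refine mem_union_right _ ?_
            rw [Rem, mem_sdiff]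
            exact ⟨hs, h5⟩
        have q2 := (card_le_card q1).trans (card_union_le _ _)
        have q3 := card_union_le (Bad z (fun j : Fin (M + 1) => v j.castSucc) d s0 N h)
          (Bad z (fun _ : Unit => 1) d s0 N h)
        rw [hR]
        exact_mod_cast q2.trans (Nat.add_le_add_right q3 _)
      calc ((Bad z v d s0 N h).card : ℝ) ≤ A2 * x ^ κ * K + A1 * x * K + 2 * (1 + A3) * (y * K) := by
            linarith
        _ ≤ A2 * y * K + A1 * y * K + 2 * (1 + A3) * (y * K) := by gcongr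
        _ ≤ (1 + A1 + A2 + 2 * (1 + A3)) * y * K := by
            have : 0 ≤ y * K := by positivity
            nlinarith
    · have e1 : (1 : ℝ) ≤ x ^ (κ / 2) := Real.one_le_rpow hx1.le (by positivity)
      have e2 := Bad_card_le z v d s0 N hs0 h
      calc ((Bad z v d s0 N h).card : ℝ) ≤ 1 * 1 * K := by linarith
        _ ≤ (1 + A1 + A2 + 2 * (1 + A3)) * x ^ (κ / 2) * K := by
            gcongr
            linarith

end Pool.Agent.X90.DA
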