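import Mathlib

/-!
# Liouville's inequality for linear forms in fixed algebraic numbers
-/

set_option autoImplicit false

namespace Pool.Agent.X90.DA

open Finset

/-- linear forms with integer coefficients in fixed algebraic numbers -/
theorem liou {J : Type} [Fintype J] (w : J → ℂ) (hw : ∀ j, IsAlgebraic ℚ (w j)) :
    ∃ κ a : ℝ, 0 ≤ κ ∧ 0 < a ∧ ∀ X : ℝ, 1 ≤ X → ∀ b : J → ℤ, (∀ j, |(b j : ℝ)| ≤ X) →
      ∑ j, (b j : ℂ) * w j ≠ 0 → a * X ^ (-κ) ≤ ‖∑ j, (b j : ℂ) * w j‖ := by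
  classical
  let K := IntermediateField.adjoin ℚ (Set.range w)
  have hfd : FiniteDimensional ℚ K := by
    refine IntermediateField.finiteDimensional_adjoin (S := Set.range w) ?_
    rintro x ⟨j, rfl⟩
    exact (hw j).isIntegral
  have : NumberField K := ⟨⟩
  let γ : J → K := fun j => ⟨w j, IntermediateField.subset_adjoin ℚ _ ⟨j, rfl⟩⟩
  obtain ⟨Δ, hΔ, hint⟩ := exists_integral_multiples ℤ ℚ (univ.image γ)
  have hint' : ∀ j, IsIntegral ℤ (Δ • γ j) := fun j => hint _ (mem_image_of_mem γ (mem_univ j))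
  set σ0 : K →ₐ[ℚ] ℂ := K.val with hσ0
  set C : ℝ := 1 + |(Δ : ℝ)| * ∑ σ : K →ₐ[ℚ] ℂ, ∑ j, ‖σ (γ j)‖ with hC
  have hC1 : 1 ≤ C := le_add_of_nonneg_right (by positivity)
  set n : ℕ := (univ.erase σ0).card with hn
  have hΔ' : (0 : ℝ) < |(Δ : ℝ)| := by
    rw [abs_pos]
    exact_mod_cast hΔ
  refine ⟨n, 1 / (|(Δ : ℝ)| * C ^ n), Nat.cast_nonneg _, by positivity, fun X hX b hb hne => ?_⟩
  set β : K := ∑ j, (b j) • (Δ • γ j) with hβ
  have hβi : IsIntegral ℤ β := IsIntegral.sum _ fun j _ => (hint' j).smul _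
  have hσ : ∀ σ : K →ₐ[ℚ] ℂ, σ β = (Δ : ℂ) * ∑ j, (b j : ℂ) * σ (γ j) := by
    intro σ
    rw [hβ, map_sum, mul_sum]
    refine sum_congr rfl fun j _ => ?_
    rw [zsmul_eq_mul, zsmul_eq_mul, map_mul, map_mul, map_intCast, map_intCast]
    ring
  have h0 : σ0 β = (Δ : ℂ) * ∑ j, (b j : ℂ) * w j := hσ σ0
  have hβ0 : β ≠ 0 := by
    intro h
    rw [h, map_zero] at h0
    have h1 : (Δ : ℂ) ≠ 0 := by exact_mod_cast hΔ
    exact (mul_ne_zero h1 hne) h0.symm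
  -- the norm
  have hnorm : (1 : ℝ) ≤ ∏ σ : K →ₐ[ℚ] ℂ, ‖σ β‖ := by
    have h1 : IsIntegral ℤ (Algebra.norm ℚ β) := Algebra.isIntegral_norm ℚ hβi
    obtain ⟨z, hz⟩ := IsIntegrallyClosed.isIntegral_iff.1 h1
    have h2 : Algebra.norm ℚ β ≠ 0 := Algebra.norm_ne_zero_iff.2 hβ0
    have h3 := Algebra.norm_eq_prod_embeddings ℚ ℂ β
    rw [← norm_prod, ← h3, ← hz]
    have h4 : z ≠ 0 := by
      rintro rfl
      apply h2
      rw [← hz]
      simp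
    have h5 : (1 : ℝ) ≤ |(z : ℝ)| := by exact_mod_cast Int.one_le_abs h4
    simpa using h5
  have hup : ∀ σ : K →ₐ[ℚ] ℂ, ‖σ β‖ ≤ C * X := by
    intro σ
    rw [hσ, norm_mul]
    have h1 : ‖∑ j, (b j : ℂ) * σ (γ j)‖ ≤ X * ∑ σ : K →ₐ[ℚ] ℂ, ∑ j, ‖σ (γ j)‖ := by
      refine (norm_sum_le _ _).trans ?_
      calc ∑ j, ‖(b j : ℂ) * σ (γ j)‖ ≤ ∑ j, X * ‖σ (γ j)‖ := by
            refine sum_le_sum fun j _ => ?_
            rw [norm_mul]
            refine mul_le_mul_of_nonneg_right ?_ (norm_nonneg _)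
            rw [Complex.norm_intCast]
            exact hb j
        _ = X * ∑ j, ‖σ (γ j)‖ := by rw [mul_sum]
        _ ≤ _ := by
            refine mul_le_mul_of_nonneg_left ?_ (by linarith)
            exact single_le_sum (f := fun σ : K →ₐ[ℚ] ℂ => ∑ j, ‖σ (γ j)‖)
              (fun _ _ => sum_nonneg fun _ _ => norm_nonneg _) (mem_univ σ)
    rw [Complex.norm_intCast]
    calc |(Δ : ℝ)| * ‖∑ j, (b j : ℂ) * σ (γ j)‖ ≤
        |(Δ : ℝ)| * (X * ∑ σ : K →ₐ[ℚ] ℂ, ∑ j, ‖σ (γ j)‖) :=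
          mul_le_mul_of_nonneg_left h1 (abs_nonneg _)
      _ = (C - 1) * X := by rw [hC]; ring
      _ ≤ C * X := by nlinarith
  have hrest : ∏ σ ∈ univ.erase σ0, ‖σ β‖ ≤ (C * X) ^ n := by
    rw [hn, ← prod_const]
    exact prod_le_prod (fun σ _ => norm_nonneg _) fun σ _ => hup σ
  rw [← mul_prod_erase univ _ (mem_univ σ0), h0, norm_mul, Complex.norm_intCast] at hnorm
  have hX0 : (0 : ℝ) < X := by linarith
  have h6 : (1 : ℝ) ≤ |(Δ : ℝ)| * ‖∑ j, (b j : ℂ) * w j‖ * (C * X) ^ n :=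
    hnorm.trans (mul_le_mul_of_nonneg_left hrest (by positivity))
  rw [Real.rpow_neg hX0.le, Real.rpow_natCast, ← div_eq_mul_inv, div_div, div_le_iff₀ (by positivity)]
  rw [mul_pow] at h6
  linarith

end Pool.Agent.X90.DA
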