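import Pool.Agent.X90.DA.Dser

/-!
# Polynomials with coefficients in an arbitrary finitely generated ring
-/

set_option autoImplicit false

namespace Pool.Agent.X90.DA

open Finset

section arrays

variable {σ : Type} [Fintype σ] [DecidableEq σ] {d : ℕ}

/-- exponents -/
noncomputable def fx (e : σ → Fin (d + 1)) : σ →₀ ℕ :=
  Finsupp.equivFunOnFinite.symm fun i => ((e i : Fin (d + 1)) : ℕ)

lemma fx_apply (e : σ → Fin (d + 1)) (i : σ) : fx e i = e i := rfl

lemma fx_surj {P : MvPolynomial σ ℤ} (hP : P.totalDegree ≤ d)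
    {m : σ →₀ ℕ} (hm : m ∈ P.support) : ∃ e, fx (d := d) e = m := by
  have h1 := MvPolynomial.le_totalDegree hm
  have h2 : ∀ i, m i < d + 1 := by
    intro i
    by_cases hi : i ∈ m.support
    · have h3 : m i ≤ m.sum fun _ e => e :=
        Finset.single_le_sum (f := fun i => m i) (fun _ _ => Nat.zero_le _) hi
      omega
    · rw [Finsupp.notMem_support_iff.1 hi]
      omega
  refine ⟨fun i => ⟨m i, h2 _⟩, ?_⟩
  ext i
  rfl

lemma fx_inj {e e' : σ → Fin (d + 1)} (h : fx e = fx e') : e = e' := by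
  funext i
  have := DFunLike.congr_fun h i
  rw [fx_apply, fx_apply] at this
  exact Fin.ext this

lemma eval_fx {R : Type*} [CommRing R] [Algebra ℤ R] {P : MvPolynomial σ ℤ} (hP : P.totalDegree ≤ d) (w : σ → R) :
    MvPolynomial.aeval w P =
      ∑ e : σ → Fin (d + 1), ((P.coeff (fx e) : ℤ) : R) * ∏ i, (w i) ^ ((e i : Fin (d + 1)) : ℕ) := by
  rw [MvPolynomial.aeval_def, MvPolynomial.eval₂_eq']
  simp only [eq_intCast]
  have h5 : ∑ e : σ → Fin (d + 1), ((P.coeff (fx e) : ℤ) : R) *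
        ∏ i, (w i) ^ ((e i : Fin (d + 1)) : ℕ) =
      ∑ m ∈ (univ : Finset (σ → Fin (d + 1))).image fx,
        ((P.coeff m : ℤ) : R) * ∏ i, w i ^ (m i) := by
    rw [sum_image (fun x _ y _ hxy => fx_inj hxy)]
    rfl
  rw [h5]
  refine sum_subset ?_ ?_
  · intro m hm
    obtain ⟨e, he⟩ := fx_surj hP hm
    exact mem_image.2 ⟨e, mem_univ _, he⟩
  · intro m _ hm
    rw [MvPolynomial.notMem_support_iff.1 hm]
    simp

lemma sum_arrow' {ι κ : Type} [Fintype ι] [DecidableEq ι] [Fintype κ] [DecidableEq κ] {R : Type*}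
    [AddCommMonoid R] (F : (ι ⊕ κ → Fin (d + 1)) → R) :
    ∑ g : ι ⊕ κ → Fin (d + 1), F g =
      ∑ e' : κ → Fin (d + 1), ∑ e : ι → Fin (d + 1), F (Sum.elim e e') := by
  rw [sum_comm, ← Finset.sum_product', ← Finset.univ_product_univ.symm]
  refine Fintype.sum_equiv (Equiv.sumArrowEquivProdArrow ι κ (Fin (d + 1))) _ _ fun g => ?_
  congr 1
  funext x
  cases x <;> rfl

end arrays

variable {ι : Type} [Fintype ι] [DecidableEq ι] {d : ℕ}

/-- the coefficients of the translated polynomial, complex coefficients -/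
noncomputable def tcC (c : ι → ℂ) (a : (ι → Fin (d + 1)) → ℂ) (f : ι → Fin (d + 1)) : ℂ :=
  ∑ e, a e * ∏ i, ((Nat.choose (e i) (f i) : ℂ) * c i ^ ((e i : ℕ) - f i))

lemma tcC_ne (c : ι → ℂ) (a : (ι → Fin (d + 1)) → ℂ) (ha : a ≠ 0) : ∃ f, tcC c a f ≠ 0 := by
  classical
  obtain ⟨e1, he1⟩ : ∃ e, a e ≠ 0 := by
    by_contra h
    push Not at h
    exact ha (funext h)
  obtain ⟨e0, he0, hmax⟩ := exists_max_image (univ.filter fun e => a e ≠ 0)
    (fun e : ι → Fin (d + 1) => ∑ i, ((e i : Fin (d + 1)) : ℕ))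
    ⟨e1, by rw [mem_filter]; exact ⟨mem_univ _, he1⟩⟩
  rw [mem_filter] at he0
  refine ⟨e0, ?_⟩
  rw [tcC, sum_eq_single e0]
  · simpa using he0.2
  · intro e _ hne
    by_cases hae : a e = 0
    · rw [hae]
      simp
    · have h1 := hmax e (by rw [mem_filter]; exact ⟨mem_univ _, hae⟩)
      obtain ⟨i, hi⟩ : ∃ i, ((e i : Fin (d + 1)) : ℕ) < ((e0 i : Fin (d + 1)) : ℕ) := by
        by_contra hcon
        push Not at hcon
        apply hne
        have h2 : ∑ i, ((e i : Fin (d + 1)) : ℕ) = ∑ i, ((e0 i : Fin (d + 1)) : ℕ) :=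
          le_antisymm h1 (sum_le_sum fun i _ => hcon i)
        have h3 := (sum_eq_sum_iff_of_le (fun i _ => hcon i)).1 h2.symm
        funext i
        exact (Fin.ext (h3 i (mem_univ i))).symm
      rw [prod_eq_zero (mem_univ i), mul_zero]
      rw [Nat.choose_eq_zero_of_lt hi]
      simp
  · intro h
    exact absurd (mem_univ _) h

lemma sum_translateC (c x : ι → ℂ) (a : (ι → Fin (d + 1)) → ℂ) :
    ∑ e : ι → Fin (d + 1), a e * ∏ i, (c i + x i) ^ ((e i : Fin (d + 1)) : ℕ) =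
    ∑ f : ι → Fin (d + 1), tcC c a f * ∏ i, x i ^ ((f i : Fin (d + 1)) : ℕ) := by
  simp only [prod_expand, tcC]
  simp only [mul_sum, sum_mul]
  rw [sum_comm]
  refine sum_congr rfl fun f _ => ?_
  refine sum_congr rfl fun e _ => ?_
  ring

/-- a common denominator -/
lemma common_den {κ : Type} [Fintype κ] (a : κ → ℚ) : ∃ Δ : ℕ, Δ ≠ 0 ∧ ∃ z : κ → ℤ,
    ∀ k, (Δ : ℚ) * a k = z k := by
  classical
  refine ⟨∏ k, (a k).den, prod_ne_zero_iff.2 fun k _ => (a k).den_ne_zero,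
    fun k => (∏ i ∈ univ.erase k, ((a i).den : ℤ)) * (a k).num, fun k => ?_⟩
  rw [← prod_erase_mul univ _ (mem_univ k)]
  push_cast
  rw [mul_assoc, Rat.den_mul_eq_num]

/-- finitely many complex numbers, one of them nonzero, as integral combinations of independent ones -/
lemma indep {Q : Type} [Fintype Q] (u : Q → ℂ) (hu : ∃ q, u q ≠ 0) :
    ∃ (M : ℕ) (_ : M + 1 ≤ Fintype.card Q) (v : Fin (M + 1) → ℂ) (_ : LinearIndependent ℚ v)
      (Δ : ℕ) (_ : Δ ≠ 0) (ρ : Q → Fin (M + 1) → ℤ), ∀ q, (Δ : ℂ) * u q = ∑ μ, (ρ q μ : ℂ) * v μ := by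
  classical
  set V : Submodule ℚ ℂ := Submodule.span ℚ (Set.range u) with hV
  have hfin : FiniteDimensional ℚ V := FiniteDimensional.span_of_finite ℚ (Set.finite_range u)
  have hmem : ∀ q, u q ∈ V := fun q => Submodule.subset_span ⟨q, rfl⟩
  have hpos : 0 < Module.finrank ℚ V := by
    obtain ⟨q, hq⟩ := hu
    rw [Module.finrank_pos_iff_exists_ne_zero]
    exact ⟨⟨u q, hmem q⟩, fun h => hq (congrArg Subtype.val h)⟩
  obtain ⟨M, hM⟩ : ∃ M, Module.finrank ℚ V = M + 1 := ⟨Module.finrank ℚ V - 1, by omega⟩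
  let b : Module.Basis (Fin (M + 1)) ℚ V := Module.finBasisOfFinrankEq ℚ V hM
  have hcard : M + 1 ≤ Fintype.card Q := by
    rw [← hM, hV]
    exact finrank_range_le_card u
  obtain ⟨Δ, hΔ, ρ, hρ⟩ := common_den (fun p : Q × Fin (M + 1) => b.repr ⟨u p.1, hmem p.1⟩ p.2)
  refine ⟨M, hcard, fun μ => (b μ : ℂ), ?_, Δ, hΔ, fun q μ => ρ (q, μ), fun q => ?_⟩
  · have := b.linearIndependent.map' V.subtype (Submodule.ker_subtype V)
    exact this
  · have h1 := b.sum_repr ⟨u q, hmem q⟩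
    have h2 := congrArg (Subtype.val : V → ℂ) h1
    simp only [AddSubmonoidClass.coe_finsetSum, Submodule.coe_smul] at h2
    rw [← h2, mul_sum]
    refine sum_congr rfl fun μ _ => ?_
    have h3 := hρ (q, μ)
    simp only at h3
    rw [Rat.smul_def, ← mul_assoc]
    congr 1
    exact_mod_cast congrArg (fun r : ℚ => (r : ℂ)) h3

end Pool.Agent.X90.DA
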