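import Pool.Agent.X90.DA.Main

/-!
# The count of the exceptional tuples
-/

set_option autoImplicit false

namespace Pool.Agent.X90.DA

open Finset

lemma eval_sum {R : Type*} [CommRing R] [Algebra ℤ R] {t k D : ℕ} {P : MvPolynomial (Fin t ⊕ Fin k) ℤ}
    (hP : P.totalDegree ≤ D) (y : Fin t → R) (w : Fin k → R) :
    MvPolynomial.aeval (Sum.elim y w) P =
      ∑ e : Fin k → Fin (D + 1), (∑ m : Fin t → Fin (D + 1),
        ((P.coeff (fx (Sum.elim m e)) : ℤ) : R) * ∏ j, y j ^ ((m j : Fin (D + 1)) : ℕ)) *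
        ∏ i, (w i) ^ ((e i : Fin (D + 1)) : ℕ) := by
  rw [eval_fx hP, sum_arrow']
  refine sum_congr rfl fun e _ => ?_
  rw [sum_mul]
  refine sum_congr rfl fun m _ => ?_
  rw [Fintype.prod_sum_type]
  simp only [Sum.elim_inl, Sum.elim_inr]
  ring

/-- subtraction of exponents -/
def sb {k D : ℕ} (e f : Fin k → Fin (D + 1)) : Fin k → Fin (D + 1) :=
  fun i => ⟨(e i : ℕ) - f i, by have := (e i).2; omega⟩

/-- tuples with a nontrivial relation over the numbers `x` -/
def Exc {t k : ℕ} (D : ℕ) (x : Fin t → ℂ) (z : Fin k → ℕ → ℂ) (s1 N : ℕ) (h : ℝ) : Set (Fin k → ℕ) :=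
  {s | (∀ i, s1 ≤ s i ∧ s i ≤ N) ∧ ∃ P : MvPolynomial (Fin t ⊕ Fin k) ℤ, P.totalDegree ≤ D ∧
    (∀ m, |((P.coeff m : ℤ) : ℝ)| ≤ Real.exp h) ∧
    MvPolynomial.aeval (Sum.elim (fun j => MvPolynomial.C (x j)) MvPolynomial.X :
      Fin t ⊕ Fin k → MvPolynomial (Fin k) ℂ) P ≠ 0 ∧
    MvPolynomial.aeval (Sum.elim x fun i => z i (s i)) P = 0}

theorem count_main (t k D : ℕ) (x : Fin t → ℂ) (c : Fin k → ℂ) (z : Fin k → ℕ → ℂ) (s1 : ℕ)
    (hs1 : 1 ≤ s1) (hnear : ∀ i, Near (fun s => z i s - c i) s1) :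
    ∃ A : ℝ, 0 < A ∧ ∀ (N : ℕ) (h : ℝ), 1 ≤ h →
      ((Exc D x z 1 N h).ncard : ℝ) ≤
        A * (h / N) ^ ((1 / 2 : ℝ) ^ ((D + 1) ^ (t + k))) * (N : ℝ) ^ k := by
  classical
  -- constants
  obtain ⟨M, hM, v, hv, Δ, hΔ, ρ, hρ⟩ := indep
    (fun p : (Fin t → Fin (D + 1)) × (Fin k → Fin (D + 1)) =>
      (∏ j, x j ^ ((p.1 j : Fin (D + 1)) : ℕ)) * ∏ i, c i ^ ((p.2 i : Fin (D + 1)) : ℕ))
    ⟨(0, 0), by simp⟩
  have hcardQ : Fintype.card ((Fin t → Fin (D + 1)) × (Fin k → Fin (D + 1))) = (D + 1) ^ (t + k) := by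
    rw [Fintype.card_prod, Fintype.card_fun, Fintype.card_fun]
    simp only [Fintype.card_fin]
    rw [pow_add]
  rw [hcardQ] at hM
  set z' : Fin k → ℕ → ℂ := fun i s => z i s - c i with hz'
  obtain ⟨A, hA, hcount⟩ := elim M (Fin k) z' s1 hs1 hnear D v hv
  -- the height
  set S : ℝ := 1 + ∑ m : Fin t → Fin (D + 1), ∑ e : Fin k → Fin (D + 1),
    ∑ f : Fin k → Fin (D + 1), ∑ μ : Fin (M + 1),
      |((∏ i, Nat.choose (e i) (f i) : ℕ) : ℝ) * (ρ (m, sb e f) μ : ℝ)| with hS
  have hS1 : 1 ≤ S := by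
    rw [hS]
    exact le_add_of_nonneg_right (by positivity)
  set L : ℝ := Real.log S with hL
  have hL0 : 0 ≤ L := Real.log_nonneg hS1
  -- the key identity
  have key : ∀ (P : MvPolynomial (Fin t ⊕ Fin k) ℤ) (f : Fin k → Fin (D + 1)),
      ∑ μ, ((∑ e : Fin k → Fin (D + 1), ∑ m : Fin t → Fin (D + 1),
        P.coeff (fx (Sum.elim m e)) *
          (((∏ i, Nat.choose (e i) (f i) : ℕ) : ℤ) * ρ (m, sb e f) μ) : ℤ) : ℂ) * v μ =
      Δ * tcC c (fun e : Fin k → Fin (D + 1) => ∑ m : Fin t → Fin (D + 1),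
        ((P.coeff (fx (Sum.elim m e)) : ℤ) : ℂ) * ∏ j, x j ^ ((m j : Fin (D + 1)) : ℕ)) f := by
    intro P f
    rw [tcC, mul_sum]
    push_cast
    simp only [sum_mul]
    rw [sum_comm]
    refine sum_congr rfl fun e _ => ?_
    rw [sum_comm, mul_sum]
    refine sum_congr rfl fun m _ => ?_
    have h1 := hρ (m, sb e f)
    simp only [sb] at h1
    rw [prod_mul_distrib]
    calc ∑ μ, ((P.coeff (fx (Sum.elim m e)) : ℤ) : ℂ) *
          ((∏ i, (Nat.choose (e i) (f i) : ℂ)) * (ρ (m, sb e f) μ : ℂ)) * v μ =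
        ((P.coeff (fx (Sum.elim m e)) : ℤ) : ℂ) * (∏ i, (Nat.choose (e i) (f i) : ℂ)) *
          ∑ μ, (ρ (m, sb e f) μ : ℂ) * v μ := by
          rw [mul_sum]
          exact sum_congr rfl fun μ _ => by ring
      _ = _ := by
          rw [show (∑ μ, (ρ (m, sb e f) μ : ℂ) * v μ) = _ from h1.symm]
          ring
  -- the transfer
  have htrans : ∀ (N : ℕ) (h : ℝ), 1 ≤ h → ∀ s : Fin k → ℕ, (∀ i, s1 ≤ s i) → s ∈ Exc D x z 1 N h →
      s ∈ Bad z' v D s1 N (h + L) := by
    rintro N h hh s hs ⟨hsN, P, hPD, hPh, hPne, hP0⟩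
    rw [mem_Bad]
    refine ⟨fun i => ⟨hs i, (hsN i).2⟩, fun f μ => ∑ e : Fin k → Fin (D + 1),
      ∑ m : Fin t → Fin (D + 1), P.coeff (fx (Sum.elim m e)) *
        (((∏ i, Nat.choose (e i) (f i) : ℕ) : ℤ) * ρ (m, sb e f) μ), ?_, fun f μ => ?_, ?_⟩
    · -- nonzero
      intro h0
      apply hPne
      have hq : (fun e : Fin k → Fin (D + 1) => ∑ m : Fin t → Fin (D + 1),
          ((P.coeff (fx (Sum.elim m e)) : ℤ) : ℂ) * ∏ j, x j ^ ((m j : Fin (D + 1)) : ℕ)) = 0 := by
        by_contra hne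
        obtain ⟨f, hf⟩ := tcC_ne c _ hne
        have h1 := key P f
        apply hf
        have h2 : ∀ μ, (∑ e : Fin k → Fin (D + 1), ∑ m : Fin t → Fin (D + 1),
          P.coeff (fx (Sum.elim m e)) *
            (((∏ i, Nat.choose (e i) (f i) : ℕ) : ℤ) * ρ (m, sb e f) μ)) = 0 := fun μ =>
          congrFun (congrFun h0 f) μ
        simp only [h2, Int.cast_zero, zero_mul, sum_const_zero] at h1
        have hΔ' : (Δ : ℂ) ≠ 0 := by exact_mod_cast hΔ
        exact (mul_eq_zero.1 h1.symm).resolve_left hΔ'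
      rw [eval_sum hPD]
      refine sum_eq_zero fun e _ => ?_
      have h3 := congrFun hq e
      simp only [Pi.zero_apply] at h3
      have h4 : (∑ m : Fin t → Fin (D + 1), ((P.coeff (fx (Sum.elim m e)) : ℤ) :
          MvPolynomial (Fin k) ℂ) * ∏ j, (MvPolynomial.C (x j)) ^ ((m j : Fin (D + 1)) : ℕ)) = 0 := by
        have h5 := congrArg (MvPolynomial.C (σ := Fin k)) h3
        rw [map_sum, map_zero] at h5
        rw [← h5]
        refine sum_congr rfl fun m _ => ?_
        rw [map_mul, map_intCast, map_prod]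
        simp only [map_pow]
      rw [h4, zero_mul]
    · -- height
      push_cast
      have h1 : Real.exp (h + L) = Real.exp h * S := by
        rw [Real.exp_add, hL, Real.exp_log (by linarith)]
      rw [h1]
      calc |∑ e : Fin k → Fin (D + 1), ∑ m : Fin t → Fin (D + 1),
            ((P.coeff (fx (Sum.elim m e)) : ℤ) : ℝ) *
            ((∏ i, (Nat.choose (e i) (f i) : ℝ)) * (ρ (m, sb e f) μ : ℝ))| ≤
          ∑ e : Fin k → Fin (D + 1), ∑ m : Fin t → Fin (D + 1), Real.exp h *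
            |((∏ i, Nat.choose (e i) (f i) : ℕ) : ℝ) * (ρ (m, sb e f) μ : ℝ)| := by
            refine (abs_sum_le_sum_abs _ _).trans (sum_le_sum fun e _ => ?_)
            refine (abs_sum_le_sum_abs _ _).trans (sum_le_sum fun m _ => ?_)
            rw [abs_mul]
            push_cast
            exact mul_le_mul_of_nonneg_right (hPh _) (abs_nonneg _)
        _ = Real.exp h * ∑ m : Fin t → Fin (D + 1), ∑ e : Fin k → Fin (D + 1),
            |((∏ i, Nat.choose (e i) (f i) : ℕ) : ℝ) * (ρ (m, sb e f) μ : ℝ)| := by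
            rw [sum_comm, mul_sum]
            refine sum_congr rfl fun m _ => ?_
            rw [mul_sum]
        _ ≤ Real.exp h * S := by
            refine mul_le_mul_of_nonneg_left ?_ (Real.exp_pos _).le
            rw [hS]
            refine le_trans ?_ (le_add_of_nonneg_left zero_le_one)
            refine sum_le_sum fun m _ => sum_le_sum fun e _ => ?_
            have h2 := single_le_sum (f := fun μ : Fin (M + 1) =>
              |((∏ i, Nat.choose (e i) (f i) : ℕ) : ℝ) * (ρ (m, sb e f) μ : ℝ)|)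
              (fun _ _ => abs_nonneg _) (mem_univ μ)
            refine h2.trans ?_
            exact single_le_sum (f := fun f : Fin k → Fin (D + 1) => ∑ μ : Fin (M + 1),
              |((∏ i, Nat.choose (e i) (f i) : ℕ) : ℝ) * (ρ (m, sb e f) μ : ℝ)|)
              (fun _ _ => sum_nonneg fun _ _ => abs_nonneg _) (mem_univ f)
    · -- relation
      simp only [key P]
      have h1 := eval_sum hPD x (fun i => z i (s i))
      rw [hP0] at h1
      have h2 : ∀ i, z i (s i) = c i + z' i (s i) := fun i => by rw [hz']; ring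
      simp only [h2] at h1
      have h3 := sum_translateC c (fun i => z' i (s i)) (fun e : Fin k → Fin (D + 1) =>
        ∑ m : Fin t → Fin (D + 1), ((P.coeff (fx (Sum.elim m e)) : ℤ) : ℂ) *
          ∏ j, x j ^ ((m j : Fin (D + 1)) : ℕ))
      rw [← h1] at h3
      simp only [mul_assoc]
      rw [← mul_sum, ← h3, mul_zero]
  -- the small arguments
  set Low : ℕ → Finset (Fin k → ℕ) := fun N => (univ : Finset (Fin k)).biUnion fun i =>
    (box (Fin k) 1 N).filter fun s => |∑ j, ((Pi.single i 1 : Fin k → ℤ) j : ℝ) *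
      ((1 : ℝ) * s j)| < s1 with hLow
  have hLowc : ∀ (N : ℕ) (h : ℝ), 1 ≤ h →
      ((Low N).card : ℝ) ≤ k * (2 * s1 + 1) * (h / N * (N : ℝ) ^ k) := by
    intro N h hh
    have h1 : ((Low N).card : ℝ) ≤ ∑ i : Fin k, (((box (Fin k) 1 N).filter fun s =>
        |∑ j, ((Pi.single i 1 : Fin k → ℤ) j : ℝ) * ((1 : ℝ) * s j)| < s1).card : ℝ) := by
      rw [← Nat.cast_sum, Nat.cast_le, hLow]
      exact card_biUnion_le
    rcases Nat.eq_zero_or_pos N with hN | hN
    · have h2 : Low N = ∅ := by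
        rw [hLow, eq_empty_iff_forall_notMem]
        intro s hs
        simp only [mem_biUnion, mem_univ, true_and, mem_filter, mem_box] at hs
        obtain ⟨i, hi, -⟩ := hs
        have := hi i
        omega
      rw [h2, card_empty, Nat.cast_zero]
      positivity
    · have hN' : (0 : ℝ) < N := by exact_mod_cast hN
      rcases Nat.eq_zero_or_pos k with hk | hk
      · subst hk
        have h2 : Low N = ∅ := by
          rw [hLow, eq_empty_iff_forall_notMem]
          intro s hs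
          simp only [mem_biUnion, mem_univ, true_and, mem_filter, mem_box] at hs
          obtain ⟨i, -⟩ := hs
          exact i.elim0
        rw [h2, card_empty, Nat.cast_zero]
        positivity
      · have h3 : ∀ i : Fin k, (((box (Fin k) 1 N).filter fun s =>
            |∑ j, ((Pi.single i 1 : Fin k → ℤ) j : ℝ) * ((1 : ℝ) * s j)| < s1).card : ℝ) ≤
            (2 * s1 / 1 + 1) * (N : ℝ) ^ (k - 1) := by
          intro i
          have := card_hyper (ι := Fin k) (N := N) le_rfl (fun _ => (1 : ℝ)) one_pos (fun _ => le_rfl)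
            (Pi.single i 1) (by
              intro h0
              have := congrFun h0 i
              simp at this) (H := (s1 : ℝ)) (Nat.cast_nonneg _)
          rwa [Fintype.card_fin] at this
        have h4 : h / N * (N : ℝ) ^ k = h * (N : ℝ) ^ (k - 1) := by
          have h6 : (N : ℝ) ^ k = (N : ℝ) ^ (k - 1) * N := by
            rw [← pow_succ, Nat.sub_add_cancel hk]
          rw [h6]
          field_simp
        rw [h4]
        calc ((Low N).card : ℝ) ≤ ∑ _i : Fin k, (2 * s1 / 1 + 1) * (N : ℝ) ^ (k - 1) :=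
              h1.trans (sum_le_sum fun i _ => h3 i)
          _ = k * (2 * s1 + 1) * (1 * (N : ℝ) ^ (k - 1)) := by
              rw [sum_const, card_univ, Fintype.card_fin, nsmul_eq_mul]
              ring
          _ ≤ _ := by gcongr
  -- the inclusion
  have hsub : ∀ (N : ℕ) (h : ℝ), 1 ≤ h → Exc D x z 1 N h ⊆
      ((Low N ∪ Bad z' v D s1 N (h + L) : Finset (Fin k → ℕ)) : Set (Fin k → ℕ)) := by
    intro N h hh s hs
    rw [mem_coe, mem_union]
    by_cases hs' : ∀ i, s1 ≤ s i
    · exact Or.inr (htrans N h hh s hs' hs)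
    · left
      push Not at hs'
      obtain ⟨i, hi⟩ := hs'
      rw [hLow]
      simp only [mem_biUnion, mem_univ, true_and, mem_filter, mem_box]
      refine ⟨i, hs.1, ?_⟩
      rw [sum_eq_single i]
      · rw [Pi.single_eq_same, Int.cast_one, one_mul, one_mul, abs_of_nonneg (Nat.cast_nonneg _)]
        exact_mod_cast hi
      · intro j _ hj
        rw [Pi.single_eq_of_ne hj]
        simp
      · intro h
        exact absurd (mem_univ _) h
  set κ : ℝ := (1 / 2 : ℝ) ^ ((D + 1) ^ (t + k)) with hκ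
  set κ' : ℝ := (1 / 2 : ℝ) ^ M with hκ'
  have hκ0 : 0 < κ := by positivity
  have hκκ : κ ≤ κ' := pow_le_pow_of_le_one (by norm_num) (by norm_num) (by omega)
  have hκ1 : κ' ≤ 1 := pow_le_one₀ (by norm_num) (by norm_num)
  refine ⟨1 + (k * (2 * s1 + 1) + A * (1 + L)), by positivity, fun N h hh => ?_⟩
  have hbox : Exc D x z 1 N h ⊆ (box (Fin k) 1 N : Set (Fin k → ℕ)) := by
    intro s hs
    rw [mem_coe, mem_box]
    exact hs.1
  set y : ℝ := h / N with hy
  have hy0 : 0 ≤ y := by positivity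
  have hK0 : (0 : ℝ) ≤ (N : ℝ) ^ k := by positivity
  rcases le_or_gt y 1 with hy1 | hy1
  · have e1 : y ≤ y ^ κ := by
      have := rpow_compare hy0 hy1 hκ0 (hκκ.trans hκ1)
      rwa [Real.rpow_one] at this
    have e2 : y ^ κ' ≤ y ^ κ := rpow_compare hy0 hy1 hκ0 hκκ
    have g1 : ((Exc D x z 1 N h).ncard : ℝ) ≤ (Low N).card + (Bad z' v D s1 N (h + L)).card := by
      have q1 := Set.ncard_le_ncard (hsub N h hh) (Finset.finite_toSet _)
      rw [Set.ncard_coe_finset] at q1
      exact_mod_cast q1.trans (card_union_le _ _)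
    have g2 := hLowc N h hh
    have g3 := hcount N (h + L) (by linarith)
    rw [Fintype.card_fin] at g3
    have g4 : ((h + L) / N) ^ κ' ≤ (1 + L) * y ^ κ' := by
      have q1 : (h + L) / N ≤ (1 + L) * y := by
        rw [hy, ← mul_div_assoc]
        refine div_le_div_of_nonneg_right ?_ (Nat.cast_nonneg _)
        nlinarith
      calc ((h + L) / N) ^ κ' ≤ ((1 + L) * y) ^ κ' :=
            Real.rpow_le_rpow (by positivity) q1 (by positivity)
        _ = (1 + L) ^ κ' * y ^ κ' := Real.mul_rpow (by linarith) hy0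
        _ ≤ (1 + L) * y ^ κ' := by
            refine mul_le_mul_of_nonneg_right ?_ (Real.rpow_nonneg hy0 _)
            have := Real.rpow_le_rpow_of_exponent_le (show (1 : ℝ) ≤ 1 + L by linarith) hκ1
            rwa [Real.rpow_one] at this
    have hyκ : 0 ≤ y ^ κ := Real.rpow_nonneg hy0 _
    calc ((Exc D x z 1 N h).ncard : ℝ) ≤ k * (2 * s1 + 1) * (y * (N : ℝ) ^ k) +
          A * ((h + L) / N) ^ κ' * (N : ℝ) ^ k := g1.trans (add_le_add g2 g3)
      _ ≤ k * (2 * s1 + 1) * (y ^ κ * (N : ℝ) ^ k) + A * ((1 + L) * y ^ κ) * (N : ℝ) ^ k := by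
          gcongr
          exact g4.trans (mul_le_mul_of_nonneg_left e2 (by linarith))
      _ ≤ (1 + (k * (2 * s1 + 1) + A * (1 + L))) * y ^ κ * (N : ℝ) ^ k := by
          have : 0 ≤ y ^ κ * (N : ℝ) ^ k := by positivity
          nlinarith
  · have e1 : (1 : ℝ) ≤ y ^ κ := Real.one_le_rpow hy1.le hκ0.le
    have e2 : ((Exc D x z 1 N h).ncard : ℝ) ≤ (N : ℝ) ^ k := by
      have q1 := Set.ncard_le_ncard hbox (Finset.finite_toSet _)
      rw [Set.ncard_coe_finset] at q1
      have q2 := q1.trans (card_box (ι := Fin k) (N := N) le_rfl)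
      rw [Fintype.card_fin] at q2
      exact_mod_cast q2
    calc ((Exc D x z 1 N h).ncard : ℝ) ≤ 1 * 1 * (N : ℝ) ^ k := by linarith
      _ ≤ (1 + (k * (2 * s1 + 1) + A * (1 + L))) * y ^ κ * (N : ℝ) ^ k := by
          gcongr
          have : 0 ≤ k * (2 * (s1 : ℝ) + 1) + A * (1 + L) := by positivity
          linarith

end Pool.Agent.X90.DA
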